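import Pool.Agent.R312T.Few

set_option autoImplicit false

open Finset

namespace Pool.Agent.R312T

/-- the elements strictly above `d` (and below or equal to `n`) -/
def Uset (n d : ℕ) : Finset ℕ := (S' n).filter (fun e => d < e ∧ d * (d + 1) ∣ e * (e + 1))

theorem mem_Uset {n d e : ℕ} :
    e ∈ Uset n d ↔ e ∈ S' n ∧ d < e ∧ d * (d + 1) ∣ e * (e + 1) := by
  rw [Uset, mem_filter]

theorem sq_le_two_pow (l : ℕ) (hl : 20 ≤ l) : 1150 * l ^ 2 ≤ 2 ^ (l - 1) := by
  induction l, hl using Nat.le_induction with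
  | base => norm_num
  | succ l hl ih =>
    have e : 2 ^ (l + 1 - 1) = 2 * 2 ^ (l - 1) := by
      have : l + 1 - 1 = (l - 1) + 1 := by omega
      rw [this, pow_succ]; ring
    rw [e]
    nlinarith

theorem Uset_card (n L : ℕ) (hn : 1 ≤ n) (hL : L = Nat.log 2 (4 * (n * (n + 1))))
    (hL20 : 2 ^ 20 ≤ L) (d : ℕ) (hd : d ∈ cl n (L ^ 21)) :
    (Uset n d).card ≤ (rho n d).primeFactors.card := by
  rw [mem_cl] at hd
  obtain ⟨hdS, hdX⟩ := hd
  have hdS2 := hdS
  rw [mem_S'] at hdS2
  rcases eq_or_lt_of_le hdS2.1.2 with h | h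
  · have : Uset n d = ∅ := by
      rw [Finset.eq_empty_iff_forall_notMem]
      intro e he
      rw [mem_Uset, mem_S'] at he
      omega
    rw [this]; simp
  · set U := Uset n d with hU
    have hnU : n ∈ U := by
      rw [hU, mem_Uset]
      exact ⟨self_mem hn, h, hdS2.2⟩
    have hdU : d ∉ U := by
      rw [hU, mem_Uset]
      intro h1
      omega
    set E := ((insert d U).erase n).image (rho n) with hE
    have hin : ∀ e ∈ (insert d U).erase n, e ∈ S' n ∧ e ≠ n ∧ d * (d + 1) ∣ e * (e + 1) := by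
      intro e he
      rw [Finset.mem_erase, Finset.mem_insert] at he
      rcases he.2 with h1 | h1
      · subst h1; exact ⟨hdS, he.1, dvd_rfl⟩
      · rw [hU, mem_Uset] at h1
        exact ⟨h1.1, he.1, h1.2.2⟩
    have hEc : E.card = U.card := by
      rw [hE, Finset.card_image_of_injOn, Finset.card_erase_of_mem, Finset.card_insert_of_notMem hdU]
      · simp
      · exact Finset.mem_insert_of_mem hnU
      · intro a ha b hb hab
        rw [Finset.mem_coe] at ha hb
        exact rho_injOn n (Finset.mem_coe.mpr (hin a ha).1) (Finset.mem_coe.mpr (hin b hb).1) hab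
    rw [← hEc]
    have hT0 : rho n d ≠ 0 := by have := rho_pos hdS; omega
    have hX1 : 1 ≤ L ^ 21 := Nat.one_le_pow _ _ (by omega)
    apply ph2 E (rho n d) (L ^ 21) (4 * (n * (n + 1))) hT0
    · intro m hm
      rw [hE, Finset.mem_image] at hm
      obtain ⟨e, he, rfl⟩ := hm
      exact rho_dvd_rho hdS (hin e he).1 (hin e he).2.2
    · intro m hm
      rw [hE, Finset.mem_image] at hm
      obtain ⟨e, he, rfl⟩ := hm
      exact (Nat.le_of_dvd (by omega) (rho_dvd_rho hdS (hin e he).1 (hin e he).2.2)).trans hdX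
    · exact hX1
    · intro h1
      rw [hE, Finset.mem_image] at h1
      obtain ⟨e, he, h2⟩ := h1
      have h3 := hin e he
      apply h3.2.1
      exact rho_injOn n (Finset.mem_coe.mpr h3.1) (Finset.mem_coe.mpr (self_mem hn))
        (by rw [h2, rho_self hn])
    · intro m hm
      rw [hE, Finset.mem_image] at hm
      obtain ⟨e, he, rfl⟩ := hm
      exact rho_mem (hin e he).1
    · exact ⟨2 * n + 1, by ring⟩
    · set w := (rho n d).primeFactors.card with hw
      have h2w : 2 ^ w ≤ L ^ 21 :=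
        (two_pow_omega_le _ hT0).trans ((Nat.card_divisors_le_self _).trans hdX)
      set z := Nat.log 2 (L ^ 21) + 1 with hz
      have hXz : L ^ 21 < 2 ^ z := Nat.lt_pow_succ_log_self (by norm_num) _
      have hwz : w < z := (Nat.pow_lt_pow_iff_right (by norm_num)).mp (h2w.trans_lt hXz)
      have hz2 : z + 1 ≤ 2 ^ z := Nat.lt_two_pow_self
      have hb : 256 * (w + 2) * L ^ 21 ≤ 2 ^ (2 * z + 8) := by
        calc 256 * (w + 2) * L ^ 21 ≤ 256 * 2 ^ z * 2 ^ z := by
              apply Nat.mul_le_mul _ hXz.le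
              apply Nat.mul_le_mul_left
              omega
          _ = 2 ^ (2 * z + 8) := by rw [pow_add, two_mul, pow_add]; norm_num; ring
      set l := Nat.log 2 L + 1 with hl
      have hLl : L < 2 ^ l := Nat.lt_pow_succ_log_self (by norm_num) _
      have hlL : 2 ^ (l - 1) ≤ L := by
        have : l - 1 = Nat.log 2 L := by omega
        rw [this]
        exact Nat.pow_log_le_self 2 (by omega)
      have hl20 : 20 ≤ l := by
        have : 20 < l := (Nat.pow_lt_pow_iff_right (by norm_num)).mp (hL20.trans_lt hLl)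
        omega
      have hzl : z ≤ 21 * l := by
        have h1 : 2 ^ (z - 1) ≤ L ^ 21 := by
          have : z - 1 = Nat.log 2 (L ^ 21) := by omega
          rw [this]
          exact Nat.pow_log_le_self 2 (by omega)
        have h2 : L ^ 21 < 2 ^ (21 * l) := by
          rw [mul_comm, pow_mul]
          exact Nat.pow_lt_pow_left hLl (by norm_num)
        have h3 : z - 1 < 21 * l := (Nat.pow_lt_pow_iff_right (by norm_num)).mp (h1.trans_lt h2)
        omega
      have hexp : (2 * z + 8) * (z + 2) ≤ L := by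
        have h4 := sq_le_two_pow l hl20
        calc (2 * z + 8) * (z + 2) ≤ (50 * l) * (23 * l) := by
              apply Nat.mul_le_mul <;> omega
          _ = 1150 * l ^ 2 := by ring
          _ ≤ 2 ^ (l - 1) := h4
          _ ≤ L := hlL
      calc (256 * (w + 2) * L ^ 21) ^ (w + 3) ≤ (2 ^ (2 * z + 8)) ^ (w + 3) :=
            Nat.pow_le_pow_left hb _
        _ ≤ (2 ^ (2 * z + 8)) ^ (z + 2) := Nat.pow_le_pow_right (by positivity) (by omega)
        _ = 2 ^ ((2 * z + 8) * (z + 2)) := by rw [← pow_mul]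
        _ ≤ 2 ^ L := Nat.pow_le_pow_right (by norm_num) hexp
        _ ≤ 4 * (n * (n + 1)) := by
            rw [hL]
            exact Nat.pow_log_le_self 2 (by positivity)

theorem sum_two_pow_eq (U : Finset ℕ) :
    ∑ x ∈ U, 2 ^ (U.filter (fun y => x < y)).card + 1 = 2 ^ U.card := by
  induction U using Finset.induction_on_min with
  | empty => simp
  | insert a s has ih =>
    have ha : a ∉ s := fun h => lt_irrefl _ (has a h)
    rw [Finset.sum_insert ha, Finset.card_insert_of_notMem ha]
    have e1 : (insert a s).filter (fun y => a < y) = s := by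
      ext y
      rw [Finset.mem_filter, Finset.mem_insert]
      constructor
      · rintro ⟨h | h, h2⟩
        · omega
        · exact h
      · intro h
        exact ⟨Or.inr h, has y h⟩
    have e2 : ∀ x ∈ s, 2 ^ ((insert a s).filter (fun y => x < y)).card =
        2 ^ (s.filter (fun y => x < y)).card := by
      intro x hx
      congr 2
      ext y
      rw [Finset.mem_filter, Finset.mem_filter, Finset.mem_insert]
      constructor
      · rintro ⟨h | h, h2⟩
        · have := has x hx; omega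
        · exact ⟨h, h2⟩
      · intro h
        exact ⟨Or.inr h.1, h.2⟩
    rw [e1, Finset.sum_congr rfl e2, pow_succ]
    omega

theorem sum_two_pow (U : Finset ℕ) (u : ℕ → ℕ)
    (hu : ∀ x ∈ U, u x ≤ (U.filter (fun y => x < y)).card) :
    ∑ x ∈ U, (2:ℝ) ^ (u x) ≤ 2 ^ U.card - 1 := by
  have h1 := sum_two_pow_eq U
  have h2 : ∑ x ∈ U, 2 ^ (u x) ≤ ∑ x ∈ U, 2 ^ (U.filter (fun y => x < y)).card := by
    apply Finset.sum_le_sum
    intro x hx
    exact Nat.pow_le_pow_right (by norm_num) (hu x hx)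
  have h3 : ∑ x ∈ U, 2 ^ (u x) + 1 ≤ 2 ^ U.card := by omega
  have h4 : ((∑ x ∈ U, 2 ^ (u x) + 1 : ℕ) : ℝ) ≤ ((2 ^ U.card : ℕ) : ℝ) := by exact_mod_cast h3
  push_cast at h4
  linarith

theorem block (a : ℕ → ℝ) (ha0 : ∀ n, 0 ≤ a n) (ha : ∀ n, 2 ≤ n → a n ≤ ∑ d ∈ S n, a d)
    (n Z : ℕ) (hn : 1 ≤ n) (hZ1 : 1 ≤ Z) (hZ : Z < rho n 1) :
    a n ≤ (∑ d ∈ cl n Z, (2:ℝ) ^ (Uset n d).card) *
      ∑ f ∈ (S n).filter (fun f => Z < rho n f), a f := by
  set W := cl n Z with hW
  set Y := ∑ f ∈ (S n).filter (fun f => Z < rho n f), a f with hY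
  have step1 : ∀ d ∈ W, a d ≤ ∑ f ∈ W.filter (fun f => d ∈ Uset n f), a f + Y := by
    intro d hd
    rw [hW, mem_cl] at hd
    have hdS := hd.1
    rw [mem_S'] at hdS
    have hd2 : 2 ≤ d := by
      by_contra hc
      have : d = 1 := by omega
      rw [this] at hd
      omega
    refine (ha d hd2).trans ?_
    rw [← Finset.sum_filter_add_sum_filter_not (S d) (fun f => rho n f ≤ Z)]
    have hSd : ∀ f ∈ S d, f ∈ S n := by
      intro f hf
      rw [mem_S] at hf ⊢
      exact ⟨⟨hf.1.1, by omega⟩, hf.2.trans hdS.2⟩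
    apply add_le_add
    · apply Finset.sum_le_sum_of_subset_of_nonneg
      · intro f hf
        rw [Finset.mem_filter] at hf ⊢
        have h1 := hSd f hf.1
        have h2 := hf.1
        rw [mem_S] at h2
        refine ⟨?_, ?_⟩
        · rw [hW, mem_cl]
          exact ⟨S_sub n h1, hf.2⟩
        · rw [mem_Uset]
          exact ⟨hd.1, h2.1.2, h2.2⟩
      · intro i _ _; exact ha0 i
    · apply Finset.sum_le_sum_of_subset_of_nonneg
      · intro f hf
        rw [Finset.mem_filter] at hf ⊢
        exact ⟨hSd f hf.1, by omega⟩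
      · intro i _ _; exact ha0 i
  have step2 : ∑ d ∈ W, (2:ℝ) ^ (Uset n d).card * a d ≤
      ∑ d ∈ W, (2:ℝ) ^ (Uset n d).card * (∑ f ∈ W.filter (fun f => d ∈ Uset n f), a f + Y) := by
    apply Finset.sum_le_sum
    intro d hd
    apply mul_le_mul_of_nonneg_left (step1 d hd) (by positivity)
  have step3 : ∑ d ∈ W, (2:ℝ) ^ (Uset n d).card * (∑ f ∈ W.filter (fun f => d ∈ Uset n f), a f + Y)
      = (∑ f ∈ W, (∑ d ∈ W.filter (fun d => d ∈ Uset n f), (2:ℝ) ^ (Uset n d).card) * a f) +
        (∑ d ∈ W, (2:ℝ) ^ (Uset n d).card) * Y := by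
    simp only [mul_add]
    rw [Finset.sum_add_distrib, ← Finset.sum_mul]
    congr 1
    simp only [Finset.mul_sum, Finset.sum_mul]
    apply Finset.sum_comm'
    intro d f
    rw [Finset.mem_filter, Finset.mem_filter]
    tauto
  have step4 : ∀ f ∈ W, (∑ d ∈ W.filter (fun d => d ∈ Uset n f), (2:ℝ) ^ (Uset n d).card) * a f ≤
      ((2:ℝ) ^ (Uset n f).card - 1) * a f := by
    intro f hf
    apply mul_le_mul_of_nonneg_right _ (ha0 f)
    have h1 : ∑ d ∈ W.filter (fun d => d ∈ Uset n f), (2:ℝ) ^ (Uset n d).card ≤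
        ∑ d ∈ Uset n f, (2:ℝ) ^ (Uset n d).card := by
      apply Finset.sum_le_sum_of_subset_of_nonneg
      · intro d hd
        rw [Finset.mem_filter] at hd
        exact hd.2
      · intro i _ _; positivity
    refine h1.trans ?_
    apply sum_two_pow (Uset n f) (fun d => (Uset n d).card)
    intro x hx
    apply Finset.card_le_card
    intro y hy
    rw [mem_Uset] at hx hy
    rw [Finset.mem_filter, mem_Uset]
    exact ⟨⟨hy.1, by omega, hx.2.2.trans hy.2.2⟩, hy.2.1⟩
  have step5 := Finset.sum_le_sum step4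
  have step6 : ∑ f ∈ W, ((2:ℝ) ^ (Uset n f).card - 1) * a f =
      ∑ f ∈ W, (2:ℝ) ^ (Uset n f).card * a f - ∑ f ∈ W, a f := by
    rw [← Finset.sum_sub_distrib]
    apply Finset.sum_congr rfl
    intro f _
    ring
  have hsum : ∑ f ∈ W, a f ≤ (∑ d ∈ W, (2:ℝ) ^ (Uset n d).card) * Y := by
    rw [step3] at step2
    rw [step6] at step5
    linarith
  have hnW : n ∈ W := by
    rw [hW, mem_cl]
    exact ⟨self_mem hn, by rw [rho_self hn]; exact hZ1⟩
  exact (Finset.single_le_sum (fun i _ => ha0 i) hnW).trans hsum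

end Pool.Agent.R312T
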