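import Pool.Agent.R312T.Indep

set_option autoImplicit false

open Finset

namespace Pool.Agent.R312T

theorem pow_le_two_pow (k : ℕ) : ∃ C : ℕ, 1 ≤ C ∧ ∀ v : ℕ, (v + 1) ^ k ≤ C * 2 ^ v := by
  have h1 : Filter.Tendsto (fun n : ℕ => (n : ℝ) ^ k / (2 : ℝ) ^ n) Filter.atTop (nhds 0) :=
    tendsto_pow_const_div_const_pow_of_one_lt k (by norm_num)
  obtain ⟨B, hB⟩ := h1.bddAbove_range
  refine ⟨⌈2 * B⌉₊ + 1, by omega, fun v => ?_⟩
  have h2 := hB ⟨v + 1, rfl⟩
  simp only at h2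
  have h3 : (0:ℝ) < (2:ℝ) ^ (v + 1) := by positivity
  rw [div_le_iff₀ h3] at h2
  have h4 : (((v + 1) ^ k : ℕ) : ℝ) ≤ (((⌈2 * B⌉₊ + 1) * 2 ^ v : ℕ) : ℝ) := by
    push_cast at h2 ⊢
    have h5 : 2 * B ≤ (⌈2 * B⌉₊ : ℝ) := Nat.le_ceil _
    have h6 : (0:ℝ) < (2:ℝ) ^ v := by positivity
    calc ((v:ℝ) + 1) ^ k ≤ B * 2 ^ (v + 1) := h2
      _ = (2 * B) * 2 ^ v := by ring
      _ ≤ ((⌈2 * B⌉₊ : ℝ) + 1) * 2 ^ v := by
        apply mul_le_mul_of_nonneg_right _ h6.le
        linarith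
  exact_mod_cast h4

/-- the divisor bound, in an integral form -/
theorem divisor_bound (k : ℕ) : ∃ K : ℕ, ∀ n : ℕ, n ≠ 0 → (n.divisors.card) ^ k ≤ K * n := by
  obtain ⟨C, hC1, hC⟩ := pow_le_two_pow k
  refine ⟨∏ p ∈ range (2 ^ k), C, fun n hn => ?_⟩
  rw [Nat.card_divisors hn, ← Finset.prod_pow]
  conv_rhs => rw [← Nat.prod_factorization_pow_eq_self hn]
  rw [Finsupp.prod, Nat.support_factorization]
  have h1 : ∀ p ∈ n.primeFactors, (n.factorization p + 1) ^ k ≤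
      (if p < 2 ^ k then C else 1) * p ^ n.factorization p := by
    intro p hp
    have hp2 : 2 ≤ p := (Nat.prime_of_mem_primeFactors hp).two_le
    split_ifs with h
    · exact (hC _).trans (Nat.mul_le_mul_left _ (Nat.pow_le_pow_left hp2 _))
    · rw [one_mul]
      calc (n.factorization p + 1) ^ k ≤ (2 ^ n.factorization p) ^ k :=
            Nat.pow_le_pow_left Nat.lt_two_pow_self _
        _ = (2 ^ k) ^ n.factorization p := by
            rw [← pow_mul, mul_comm, pow_mul]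
        _ ≤ _ := Nat.pow_le_pow_left (by omega) _
  calc _ ≤ ∏ p ∈ n.primeFactors, (if p < 2 ^ k then C else 1) * p ^ n.factorization p :=
        Finset.prod_le_prod' h1
    _ = (∏ p ∈ n.primeFactors, (if p < 2 ^ k then C else 1)) *
        ∏ p ∈ n.primeFactors, p ^ n.factorization p := Finset.prod_mul_distrib
    _ ≤ _ := by
        apply Nat.mul_le_mul_right
        rw [← Finset.prod_filter]
        apply Finset.prod_le_prod_of_subset_of_one_le'
        · intro p hp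
          rw [Finset.mem_filter] at hp
          exact Finset.mem_range.mpr hp.2
        · intro i _ _
          exact hC1

theorem two_pow_omega_le (n : ℕ) (hn : n ≠ 0) : 2 ^ n.primeFactors.card ≤ n.divisors.card := by
  rw [Nat.card_divisors hn, ← Finset.prod_const]
  apply Finset.prod_le_prod'
  intro p hp
  have : 0 < n.factorization p := by
    have h1 := Nat.prime_of_mem_primeFactors hp
    exact h1.factorization_pos_of_dvd hn (Nat.dvd_of_mem_primeFactors hp)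
  omega

/-- proper divisors of `n` in the triangular divisibility order -/
def S (n : ℕ) : Finset ℕ := (Ico 1 n).filter (fun d => d * (d + 1) ∣ n * (n + 1))

/-- all divisors of `n` in the triangular divisibility order -/
def S' (n : ℕ) : Finset ℕ := (Icc 1 n).filter (fun d => d * (d + 1) ∣ n * (n + 1))

/-- the ratio -/
def rho (n d : ℕ) : ℕ := n * (n + 1) / (d * (d + 1))

theorem mem_S {n d : ℕ} : d ∈ S n ↔ (1 ≤ d ∧ d < n) ∧ d * (d + 1) ∣ n * (n + 1) := by
  rw [S, mem_filter, mem_Ico]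

theorem mem_S' {n d : ℕ} : d ∈ S' n ↔ (1 ≤ d ∧ d ≤ n) ∧ d * (d + 1) ∣ n * (n + 1) := by
  rw [S', mem_filter, mem_Icc]

theorem S_sub (n : ℕ) : S n ⊆ S' n := by
  intro d hd
  rw [mem_S] at hd
  rw [mem_S']
  exact ⟨⟨hd.1.1, hd.1.2.le⟩, hd.2⟩

theorem rho_mul {n d : ℕ} (hd : d ∈ S' n) : rho n d * (d * (d + 1)) = n * (n + 1) := by
  rw [mem_S'] at hd
  exact Nat.div_mul_cancel hd.2

theorem rho_pos {n d : ℕ} (hd : d ∈ S' n) : 1 ≤ rho n d := by
  have h1 := rho_mul hd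
  rw [mem_S'] at hd
  rcases Nat.eq_zero_or_pos (rho n d) with h | h
  · rw [h, zero_mul] at h1
    have : 0 < n * (n + 1) := Nat.mul_pos (by omega) (by omega)
    omega
  · exact h

theorem rho_lt {n d e : ℕ} (hd : d ∈ S' n) (he : e ∈ S' n) (h : d < e) :
    rho n e < rho n d := by
  by_contra hcon
  push Not at hcon
  have h1 := rho_mul hd
  have h2 := rho_mul he
  have h3 : d * (d + 1) < e * (e + 1) := Nat.mul_lt_mul'' h (by omega)
  have h4 := rho_pos he
  have : rho n d * (d * (d + 1)) < rho n e * (e * (e + 1)) :=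
    calc rho n d * (d * (d + 1)) ≤ rho n e * (d * (d + 1)) := Nat.mul_le_mul_right _ hcon
      _ < _ := Nat.mul_lt_mul_of_pos_left h3 (by omega)
  omega

theorem rho_injOn (n : ℕ) : Set.InjOn (rho n) (S' n : Set ℕ) := by
  intro d hd e he h
  rw [Finset.mem_coe] at hd he
  rcases lt_trichotomy d e with h1 | h1 | h1
  · have := rho_lt hd he h1; omega
  · exact h1
  · have := rho_lt he hd h1; omega

theorem rho_self {n : ℕ} (hn : 1 ≤ n) : rho n n = 1 := by
  rw [rho]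
  exact Nat.div_self (Nat.mul_pos hn (by omega))

theorem self_mem {n : ℕ} (hn : 1 ≤ n) : n ∈ S' n := by
  rw [mem_S']; exact ⟨⟨hn, le_rfl⟩, dvd_rfl⟩

theorem rho_dvd {n d : ℕ} (hd : d ∈ S' n) : rho n d ∣ n * (n + 1) :=
  ⟨d * (d + 1), (rho_mul hd).symm⟩

theorem rho_dvd_rho {n d e : ℕ} (hd : d ∈ S' n) (he : e ∈ S' n)
    (h : d * (d + 1) ∣ e * (e + 1)) : rho n e ∣ rho n d := by
  obtain ⟨k, hk⟩ := h
  refine ⟨k, ?_⟩
  have h1 := rho_mul hd
  have h2 := rho_mul he
  rw [mem_S'] at hd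
  have hp : 0 < d * (d + 1) := Nat.mul_pos (by omega) (by omega)
  apply Nat.eq_of_mul_eq_mul_right hp
  rw [h1, ← h2, hk]
  ring

theorem rho_mem {n d : ℕ} (hd : d ∈ S' n) :
    ∃ v, rho n d * (v * v) = 4 * (n * (n + 1)) + rho n d := by
  refine ⟨2 * d + 1, ?_⟩
  rw [← rho_mul hd]
  ring

end Pool.Agent.R312T
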