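import Pool.Agent.R312T.Div

set_option autoImplicit false

open Finset

namespace Pool.Agent.R312T

/-- the divisors of `n` with ratio at most `X` -/
def cl (n X : ℕ) : Finset ℕ := (S' n).filter (fun d => rho n d ≤ X)

theorem mem_cl {n X d : ℕ} : d ∈ cl n X ↔ d ∈ S' n ∧ rho n d ≤ X := by
  rw [cl, mem_filter]

theorem pow_le_mul_choose (N l : ℕ) (h : 2 * l ≤ N) : N ^ l ≤ (2 * l) ^ l * N.choose l := by
  have h1 := Nat.pow_sub_le_descFactorial N l
  rw [Nat.descFactorial_eq_factorial_mul_choose] at h1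
  have h2 : l.factorial ≤ l ^ l := by
    rw [← Nat.descFactorial_self]
    exact Nat.descFactorial_le_pow l l
  calc N ^ l ≤ (2 * (N + 1 - l)) ^ l := Nat.pow_le_pow_left (by omega) _
    _ = 2 ^ l * (N + 1 - l) ^ l := by rw [mul_pow]
    _ ≤ 2 ^ l * (l.factorial * N.choose l) := Nat.mul_le_mul_left _ h1
    _ ≤ 2 ^ l * (l ^ l * N.choose l) := by
        apply Nat.mul_le_mul_left
        exact Nat.mul_le_mul_right _ h2
    _ = _ := by rw [mul_pow]; ring

theorem fin_arith (K x l : ℕ) (hx : K + 20 < x) (hl : 1 ≤ l)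
    (h : (x - 1) * (40 * l) ≤ 20 * x * l + (K + 12 * x * l)) : False := by
  obtain ⟨y, rfl⟩ : ∃ y, x = y + 1 := ⟨x - 1, by omega⟩
  simp only [Nat.add_sub_cancel] at h
  obtain ⟨z, rfl⟩ : ∃ z, y = K + 20 + z := ⟨y - (K + 20), by omega⟩
  obtain ⟨w, rfl⟩ : ∃ w, l = w + 1 := ⟨l - 1, by omega⟩
  ring_nf at h
  have h1 : 0 ≤ K * w := Nat.zero_le _
  have h2 : 0 ≤ z * w := Nat.zero_le _
  nlinarith

set_option exponentiation.threshold 1000 in
theorem few : ∃ L0 : ℕ, 2 ^ 20 ≤ L0 ∧ ∀ n, 1 ≤ n → L0 ≤ Nat.log 2 (4 * (n * (n + 1))) →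
    ∀ X, (Nat.log 2 (4 * (n * (n + 1)))) ^ 21 ≤ X → (cl n X).card ^ 10 ≤ X := by
  obtain ⟨K, hK⟩ := divisor_bound 400
  refine ⟨2 ^ (K + 20), Nat.pow_le_pow_right (by norm_num) (by omega), ?_⟩
  intro n hn hL X hX
  by_contra hcon
  push Not at hcon
  set T := n * (n + 1) with hT
  set q := 4 * T with hq
  set L := Nat.log 2 q with hLdef
  set x := Nat.log 2 X + 1 with hx
  set N := (cl n X).card with hN
  have hT0 : T ≠ 0 := by
    rw [hT]; positivity
  have hq0 : q ≠ 0 := by omega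
  have hLlow : 2 ^ L ≤ q := Nat.pow_log_le_self 2 hq0
  have hLup : q < 2 ^ (L + 1) := Nat.lt_pow_succ_log_self (by norm_num) q
  have hL20 : 2 ^ 20 ≤ L := le_trans (Nat.pow_le_pow_right (by norm_num) (by omega)) hL
  have hL1 : 1 ≤ L := le_trans (by norm_num) hL20
  have hX0 : X ≠ 0 := by
    have : 0 < L ^ 21 := by positivity
    omega
  have hx1 : X < 2 ^ x := Nat.lt_pow_succ_log_self (by norm_num) X
  have hx2 : 2 ^ (x - 1) ≤ X := by
    have : x - 1 = Nat.log 2 X := by omega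
    rw [this]
    exact Nat.pow_log_le_self 2 hX0
  have hxK : K + 20 < x := by
    have h1 : 2 ^ (K + 20) < 2 ^ x :=
      calc 2 ^ (K + 20) ≤ L := hL
        _ ≤ L ^ 21 := Nat.le_self_pow (by norm_num) L
        _ ≤ X := hX
        _ < 2 ^ x := hx1
    exact (Nat.pow_lt_pow_iff_right (by norm_num)).mp h1
  -- the set of ratios
  set E := (cl n X).image (rho n) with hE
  have hEcard : E.card = N := by
    rw [hE, Finset.card_image_of_injOn]
    intro a ha b hb hab
    rw [Finset.mem_coe, mem_cl] at ha hb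
    exact rho_injOn n (Finset.mem_coe.mpr ha.1) (Finset.mem_coe.mpr hb.1) hab
  have hEdvd : ∀ m ∈ E, m ∣ T := by
    intro m hm
    rw [hE, Finset.mem_image] at hm
    obtain ⟨d, hd, rfl⟩ := hm
    rw [mem_cl] at hd
    exact rho_dvd hd.1
  have hEX : ∀ m ∈ E, m ≤ X := by
    intro m hm
    rw [hE, Finset.mem_image] at hm
    obtain ⟨d, hd, rfl⟩ := hm
    rw [mem_cl] at hd
    exact hd.2
  have hEmem : ∀ m ∈ E, ∃ v, m * (v * v) = q + m := by
    intro m hm
    rw [hE, Finset.mem_image] at hm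
    obtain ⟨d, hd, rfl⟩ := hm
    rw [mem_cl] at hd
    exact rho_mem hd.1
  have hNdiv : N ≤ T.divisors.card := by
    rw [← hEcard]
    apply Finset.card_le_card
    intro m hm
    rw [Nat.mem_divisors]
    exact ⟨hEdvd m hm, hT0⟩
  have hom := two_pow_omega_le T hT0
  have hLX : L * 512 ≤ X := by
    calc L * 512 ≤ L * L ^ 20 := by
          apply Nat.mul_le_mul_left
          calc 512 ≤ 2 ^ 20 := by norm_num
            _ ≤ L := hL20
            _ ≤ L ^ 20 := Nat.le_self_pow (by norm_num) L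
      _ = L ^ 21 := by ring
      _ ≤ X := hX
  have hkey : ∃ l, 1 ≤ l ∧ l ≤ L ∧ L < 12 * x * l ∧ N.choose l ≤ T.divisors.card := by
    by_cases h6 : 6 * x ≤ L
    · refine ⟨L / (6 * x), ?_, Nat.div_le_self _ _, ?_, ?_⟩
      · exact Nat.div_pos h6 (by omega)
      · have h1 : 1 ≤ L / (6 * x) := Nat.div_pos h6 (by omega)
        have h2 : L < 6 * x * (L / (6 * x) + 1) := Nat.lt_mul_div_succ L (by omega)
        nlinarith
      · set l := L / (6 * x) with hl
        have h1 : 1 ≤ l := Nat.div_pos h6 (by omega)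
        have hl2 : l ≤ L := Nat.div_le_self _ _
        have hl3 : 6 * x * l ≤ L := Nat.mul_div_le _ _
        have := ph1 E T X q l hT0 hEdvd hEX (by omega) hEmem (by
          have e1 : 512 * l * X ≤ X ^ 2 := by
            rw [pow_two]
            apply Nat.mul_le_mul_right
            calc 512 * l ≤ L * 512 := by omega
              _ ≤ X := hLX
          calc (512 * l * X) ^ (2 * l + 1) ≤ (X ^ 2) ^ (2 * l + 1) := Nat.pow_le_pow_left e1 _
            _ = X ^ (4 * l + 2) := by rw [← pow_mul]; congr 1; ring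
            _ ≤ X ^ (6 * l) := Nat.pow_le_pow_right (by omega) (by omega)
            _ ≤ (2 ^ x) ^ (6 * l) := Nat.pow_le_pow_left hx1.le _
            _ = 2 ^ (6 * x * l) := by rw [← pow_mul]; congr 1; ring
            _ ≤ 2 ^ L := Nat.pow_le_pow_right (by norm_num) hl3
            _ ≤ q := hLlow)
        rw [hEcard] at this
        exact this.trans hom
    · exact ⟨1, le_rfl, hL1, by omega, by rw [Nat.choose_one_right]; exact hNdiv⟩
  obtain ⟨l, hl1, hlL, hlx, hch⟩ := hkey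
  have h2l20 : (2 * l) ^ 20 ≤ X := by
    calc (2 * l) ^ 20 ≤ (2 * L) ^ 20 := Nat.pow_le_pow_left (by omega) _
      _ = 2 ^ 20 * L ^ 20 := by rw [mul_pow]
      _ ≤ L * L ^ 20 := Nat.mul_le_mul_right _ hL20
      _ = L ^ 21 := by ring
      _ ≤ X := hX
  have hN2l : 2 * l ≤ N := by
    by_contra hc
    push Not at hc
    have : N ^ 10 ≤ X :=
      calc N ^ 10 ≤ (2 * l) ^ 10 := Nat.pow_le_pow_left hc.le _
        _ ≤ (2 * l) ^ 20 := Nat.pow_le_pow_right (by omega) (by norm_num)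
        _ ≤ X := h2l20
    omega
  have hpc := pow_le_mul_choose N l hN2l
  have hdb : (N.choose l) ^ 400 ≤ 2 ^ K * 2 ^ (12 * x * l) := by
    calc (N.choose l) ^ 400 ≤ (T.divisors.card) ^ 400 := Nat.pow_le_pow_left hch _
      _ ≤ K * T := hK T hT0
      _ ≤ 2 ^ K * 2 ^ (12 * x * l) := by
        apply Nat.mul_le_mul (Nat.lt_two_pow_self).le
        calc T ≤ q := by omega
          _ ≤ 2 ^ (L + 1) := hLup.le
          _ ≤ _ := Nat.pow_le_pow_right (by norm_num) hlx
  have hbig : N ^ (400 * l) ≤ 2 ^ (20 * x * l) * (2 ^ K * 2 ^ (12 * x * l)) := by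
    calc N ^ (400 * l) = (N ^ l) ^ 400 := by rw [← pow_mul]; congr 1; ring
      _ ≤ ((2 * l) ^ l * N.choose l) ^ 400 := Nat.pow_le_pow_left hpc _
      _ = ((2 * l) ^ 20) ^ (20 * l) * (N.choose l) ^ 400 := by
          rw [mul_pow, ← pow_mul, ← pow_mul]; congr 2; ring
      _ ≤ (2 ^ x) ^ (20 * l) * (2 ^ K * 2 ^ (12 * x * l)) := by
          apply Nat.mul_le_mul _ hdb
          exact Nat.pow_le_pow_left (h2l20.trans hx1.le) _
      _ = _ := by
          rw [← pow_mul]; congr 2; ring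
  have hlow : 2 ^ ((x - 1) * (40 * l)) ≤ N ^ (400 * l) := by
    calc 2 ^ ((x - 1) * (40 * l)) = (2 ^ (x - 1)) ^ (40 * l) := by rw [← pow_mul]
      _ ≤ (N ^ 10) ^ (40 * l) := Nat.pow_le_pow_left (hx2.trans hcon.le) _
      _ = N ^ (400 * l) := by rw [← pow_mul]; congr 1; ring
  have hfin : 2 ^ ((x - 1) * (40 * l)) ≤ 2 ^ (20 * x * l + (K + 12 * x * l)) := by
    rw [pow_add, pow_add]
    exact hlow.trans hbig
  have hexp := (Nat.pow_le_pow_iff_right (by norm_num : 1 < 2)).mp hfin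
  exact fin_arith K x l hxK hl1 hexp

end Pool.Agent.R312T
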