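import Pool.Agent.R312T.Runge

set_option autoImplicit false

open Finset

namespace Pool.Agent.R312T

theorem indep (D : Finset ℕ) (X q : ℕ) (hE : Even D.card) (hD : D.Nonempty)
    (h1 : ∀ m ∈ D, 1 ≤ m) (hX : ∀ m ∈ D, m ≤ X)
    (hmem : ∀ m ∈ D, ∃ v, m * (v * v) = q + m)
    (hq : (256 * D.card * X) ^ (D.card + 1) ≤ q) : ¬ IsSquare (∏ m ∈ D, m) := by
  rintro ⟨s, hs⟩
  obtain ⟨j, hj⟩ := hE
  have hc : 0 < D.card := Finset.card_pos.mpr hD
  choose! v hv using hmem
  have hprod : ∏ m ∈ D, (q + m) = (s * ∏ m ∈ D, v m) * (s * ∏ m ∈ D, v m) := by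
    have e1 : ∏ m ∈ D, (q + m) = ∏ m ∈ D, (m * (v m * v m)) := by
      apply Finset.prod_congr rfl
      intro m hm
      exact (hv m hm).symm
    rw [e1, Finset.prod_mul_distrib, Finset.prod_mul_distrib, hs]
    ring
  refine runge D j X q (by omega) (by omega) h1 hX ?_ _ hprod
  have e2 : 512 * j * X = 256 * D.card * X := by rw [hj]; ring
  have e3 : 2 * j + 1 = D.card + 1 := by omega
  rw [e2, e3]
  exact hq

theorem isSquare_of_even_factorization (n : ℕ) (hn : n ≠ 0)
    (h : ∀ p, Even (n.factorization p)) : IsSquare n := by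
  refine ⟨n.factorization.prod fun p k => p ^ (k / 2), ?_⟩
  conv_lhs => rw [← Nat.prod_factorization_pow_eq_self hn]
  rw [Finsupp.prod, Finsupp.prod, ← Finset.prod_mul_distrib]
  apply Finset.prod_congr rfl
  intro p _
  rw [← pow_add]
  congr 1
  have := h p
  obtain ⟨r, hr⟩ := this
  omega

theorem isSquare_left (a b : ℕ) (hb : b ≠ 0) (h : IsSquare (a * (b * b))) : IsSquare a := by
  obtain ⟨c, hc⟩ := h
  have h1 : b * b ∣ c * c := ⟨a, by rw [← hc]; ring⟩
  have h2 : b ∣ c := by
    rw [← pow_two, ← pow_two] at h1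
    exact (Nat.pow_dvd_pow_iff (by norm_num)).mp h1
  obtain ⟨d, hd⟩ := h2
  refine ⟨d, ?_⟩
  rw [hd] at hc
  have hb' : 0 < b * b := Nat.mul_pos (Nat.pos_of_ne_zero hb) (Nat.pos_of_ne_zero hb)
  apply Nat.eq_of_mul_eq_mul_right hb'
  rw [hc]; ring

/-- the set of primes of `T` that occur to an odd power in the product of `A` -/
def par (T : ℕ) (A : Finset ℕ) : Finset ℕ :=
  T.primeFactors.filter (fun p => Odd ((∏ m ∈ A, m).factorization p))

theorem par_mem (T : ℕ) (A : Finset ℕ) : par T A ∈ T.primeFactors.powerset :=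
  Finset.mem_powerset.mpr (Finset.filter_subset _ _)

theorem factorization_zero_of (T : ℕ) (hT : T ≠ 0) (A : Finset ℕ) (hA : ∀ m ∈ A, m ∣ T)
    (p : ℕ) (hp : p ∉ T.primeFactors) : (∏ m ∈ A, m).factorization p = 0 := by
  by_cases hpp : p.Prime
  · apply Nat.factorization_eq_zero_of_not_dvd
    intro hd
    rw [hpp.prime.dvd_finsetProd_iff] at hd
    obtain ⟨m, hm, hd⟩ := hd
    exact hp (Nat.mem_primeFactors.mpr ⟨hpp, hd.trans (hA m hm), hT⟩)
  · exact Nat.factorization_eq_zero_of_not_prime _ hpp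

theorem prod_ne_zero_of (T : ℕ) (hT : T ≠ 0) (A : Finset ℕ) (hA : ∀ m ∈ A, m ∣ T) :
    ∏ m ∈ A, m ≠ 0 := by
  rw [Finset.prod_ne_zero_iff]
  intro m hm h0
  exact hT (Nat.eq_zero_of_zero_dvd (h0 ▸ hA m hm))

theorem isSquare_mul_of_par (T : ℕ) (hT : T ≠ 0) (A B : Finset ℕ) (hA : ∀ m ∈ A, m ∣ T)
    (hB : ∀ m ∈ B, m ∣ T) (h : par T A = par T B) :
    IsSquare ((∏ m ∈ A, m) * ∏ m ∈ B, m) := by
  have hA0 := prod_ne_zero_of T hT A hA
  have hB0 := prod_ne_zero_of T hT B hB
  apply isSquare_of_even_factorization _ (mul_ne_zero hA0 hB0)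
  intro p
  rw [Nat.factorization_mul hA0 hB0, Finsupp.add_apply]
  by_cases hp : p ∈ T.primeFactors
  · have e1 : p ∈ par T A ↔ Odd ((∏ m ∈ A, m).factorization p) := by
      rw [par, Finset.mem_filter]; simp [hp]
    have e2 : p ∈ par T B ↔ Odd ((∏ m ∈ B, m).factorization p) := by
      rw [par, Finset.mem_filter]; simp [hp]
    rw [h, e2] at e1
    rw [Nat.even_add, ← Nat.not_odd_iff_even, ← Nat.not_odd_iff_even]
    tauto
  · rw [factorization_zero_of T hT A hA p hp, factorization_zero_of T hT B hB p hp]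
    simp

theorem prod_symm (A B : Finset ℕ) :
    (∏ m ∈ A, m) * ∏ m ∈ B, m =
      (∏ m ∈ (A \ B) ∪ (B \ A), m) * ((∏ m ∈ A ∩ B, m) * ∏ m ∈ A ∩ B, m) := by
  have e1 : ∏ m ∈ A, m = (∏ m ∈ A ∩ B, m) * ∏ m ∈ A \ B, m := by
    rw [Finset.prod_inter_mul_prod_sdiff]
  have e2 : ∏ m ∈ B, m = (∏ m ∈ A ∩ B, m) * ∏ m ∈ B \ A, m := by
    rw [Finset.inter_comm, Finset.prod_inter_mul_prod_sdiff]
  have e3 : Disjoint (A \ B) (B \ A) := by
    rw [Finset.disjoint_left]
    intro x hx hy
    rw [Finset.mem_sdiff] at hx hy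
    exact hy.2 hx.1
  rw [Finset.prod_union e3, e1, e2]
  ring

theorem isSquare_symm (T : ℕ) (hT : T ≠ 0) (A B : Finset ℕ) (hA : ∀ m ∈ A, m ∣ T)
    (hB : ∀ m ∈ B, m ∣ T) (h : par T A = par T B) :
    IsSquare (∏ m ∈ (A \ B) ∪ (B \ A), m) := by
  have h1 := isSquare_mul_of_par T hT A B hA hB h
  rw [prod_symm] at h1
  refine isSquare_left _ _ ?_ h1
  exact prod_ne_zero_of T hT _ (fun m hm => hA m (Finset.mem_inter.mp hm).1)

theorem symm_nonempty (A B : Finset ℕ) (h : A ≠ B) : ((A \ B) ∪ (B \ A)).Nonempty := by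
  rw [Finset.nonempty_iff_ne_empty]
  intro h0
  rw [Finset.union_eq_empty, Finset.sdiff_eq_empty_iff_subset,
    Finset.sdiff_eq_empty_iff_subset] at h0
  exact h (Finset.Subset.antisymm h0.1 h0.2)

/-- first pigeonhole -/
theorem ph1 (E : Finset ℕ) (T X q l : ℕ) (hT : T ≠ 0) (hdvd : ∀ m ∈ E, m ∣ T)
    (hX : ∀ m ∈ E, m ≤ X) (hX1 : 1 ≤ X)
    (hmem : ∀ m ∈ E, ∃ v, m * (v * v) = q + m)
    (hq : (512 * l * X) ^ (2 * l + 1) ≤ q) :
    E.card.choose l ≤ 2 ^ T.primeFactors.card := by
  rw [← Finset.card_powersetCard, ← Finset.card_powerset]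
  apply Finset.card_le_card_of_injOn (fun A => par T A)
  · intro A _
    exact par_mem T A
  · intro A hA B hB hAB
    simp only [Finset.mem_coe, Finset.mem_powersetCard] at hA hB
    by_contra hne
    have hsq := isSquare_symm T hT A B (fun m hm => hdvd m (hA.1 hm))
      (fun m hm => hdvd m (hB.1 hm)) hAB
    have hsub : ∀ m ∈ (A \ B) ∪ (B \ A), m ∈ E := by
      intro m hm
      rw [Finset.mem_union, Finset.mem_sdiff, Finset.mem_sdiff] at hm
      rcases hm with h | h
      · exact hA.1 h.1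
      · exact hB.1 h.1
    have hdisj : Disjoint (A \ B) (B \ A) := by
      rw [Finset.disjoint_left]
      intro x hx hy
      rw [Finset.mem_sdiff] at hx hy
      exact hy.2 hx.1
    have hcard : ((A \ B) ∪ (B \ A)).card = 2 * (A \ B).card := by
      rw [Finset.card_union_of_disjoint hdisj]
      have e1 := Finset.card_sdiff_add_card_inter A B
      have e2 := Finset.card_sdiff_add_card_inter B A
      rw [Finset.inter_comm] at e2
      omega
    have hle : (A \ B).card ≤ l := by
      rw [← hA.2]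
      exact Finset.card_le_card Finset.sdiff_subset
    refine indep _ X q ?_ (symm_nonempty A B hne) ?_ ?_ ?_ ?_ hsq
    · rw [hcard]; exact even_two_mul _
    · intro m hm
      exact Nat.pos_of_ne_zero (fun h0 => hT (Nat.eq_zero_of_zero_dvd (h0 ▸ hdvd m (hsub m hm))))
    · intro m hm; exact hX m (hsub m hm)
    · intro m hm; exact hmem m (hsub m hm)
    · rw [hcard]
      refine le_trans ?_ hq
      have hl : 1 ≤ l := by
        have : 0 < ((A \ B) ∪ (B \ A)).card := Finset.card_pos.mpr (symm_nonempty A B hne)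
        omega
      calc (256 * (2 * (A \ B).card) * X) ^ (2 * (A \ B).card + 1)
          ≤ (512 * l * X) ^ (2 * (A \ B).card + 1) := by
            apply Nat.pow_le_pow_left
            apply Nat.mul_le_mul_right
            omega
        _ ≤ (512 * l * X) ^ (2 * l + 1) := by
            apply Nat.pow_le_pow_right
            · exact Nat.mul_pos (by omega) hX1
            · omega

/-- second pigeonhole -/
theorem ph2 (E : Finset ℕ) (T X q : ℕ) (hT : T ≠ 0) (hdvd : ∀ m ∈ E, m ∣ T)
    (hX : ∀ m ∈ E, m ≤ X) (hX1 : 1 ≤ X) (h1E : 1 ∉ E)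
    (hmem : ∀ m ∈ E, ∃ v, m * (v * v) = q + m) (hmem1 : ∃ v, v * v = q + 1)
    (hq : (256 * (T.primeFactors.card + 2) * X) ^ (T.primeFactors.card + 3) ≤ q) :
    E.card ≤ T.primeFactors.card := by
  by_contra hcon
  push Not at hcon
  obtain ⟨E', hE', hc'⟩ := Finset.exists_subset_card_eq (Nat.succ_le_of_lt hcon)
  have hlt : T.primeFactors.powerset.card < E'.powerset.card := by
    rw [Finset.card_powerset, Finset.card_powerset, hc']
    exact Nat.pow_lt_pow_right (by norm_num) (by simp)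
  obtain ⟨A, hA, B, hB, hne, hAB⟩ := Finset.exists_ne_map_eq_of_card_lt_of_maps_to hlt
    (f := fun A => par T A) (fun A _ => par_mem T A)
  rw [Finset.mem_powerset] at hA hB
  have hAE : A ⊆ E := hA.trans hE'
  have hBE : B ⊆ E := hB.trans hE'
  have hsq := isSquare_symm T hT A B (fun m hm => hdvd m (hAE hm))
      (fun m hm => hdvd m (hBE hm)) hAB
  set D := (A \ B) ∪ (B \ A) with hD
  have hDE' : D ⊆ E' := by
    intro m hm
    rw [hD, Finset.mem_union, Finset.mem_sdiff, Finset.mem_sdiff] at hm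
    rcases hm with h | h
    · exact hA h.1
    · exact hB h.1
  have hDE : D ⊆ E := hDE'.trans hE'
  have hDc : D.card ≤ T.primeFactors.card + 1 := by
    have := Finset.card_le_card hDE'
    omega
  have hDne : D.Nonempty := symm_nonempty A B hne
  have hpos : ∀ m ∈ E, 1 ≤ m := fun m hm =>
    Nat.pos_of_ne_zero (fun h0 => hT (Nat.eq_zero_of_zero_dvd (h0 ▸ hdvd m hm)))
  have hmono : ∀ c, c ≤ T.primeFactors.card + 2 → (256 * c * X) ^ (c + 1) ≤ q := by
    intro c hc
    refine le_trans ?_ hq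
    calc (256 * c * X) ^ (c + 1) ≤ (256 * (T.primeFactors.card + 2) * X) ^ (c + 1) := by
          apply Nat.pow_le_pow_left
          apply Nat.mul_le_mul_right
          omega
      _ ≤ _ := by
          apply Nat.pow_le_pow_right
          · exact Nat.mul_pos (by omega) hX1
          · omega
  rcases Nat.even_or_odd D.card with he | ho
  · exact indep D X q he hDne (fun m hm => hpos m (hDE hm)) (fun m hm => hX m (hDE hm))
      (fun m hm => hmem m (hDE hm)) (hmono _ (by omega)) hsq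
  · have h1D : 1 ∉ D := fun h => h1E (hDE h)
    have hc2 : (insert 1 D).card = D.card + 1 := Finset.card_insert_of_notMem h1D
    refine indep (insert 1 D) X q ?_ (Finset.insert_nonempty _ _) ?_ ?_ ?_ ?_ ?_
    · rw [hc2]; exact ho.add_one
    · intro m hm
      rw [Finset.mem_insert] at hm
      rcases hm with h | h
      · omega
      · exact hpos m (hDE h)
    · intro m hm
      rw [Finset.mem_insert] at hm
      rcases hm with h | h
      · omega
      · exact hX m (hDE h)
    · intro m hm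
      rw [Finset.mem_insert] at hm
      rcases hm with h | h
      · obtain ⟨v, hv⟩ := hmem1
        exact ⟨v, by rw [h, one_mul]; exact hv⟩
      · exact hmem m (hDE h)
    · rw [hc2]
      exact hmono _ (by omega)
    · rw [Finset.prod_insert h1D, one_mul]
      exact hsq

end Pool.Agent.R312T
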