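import Pool.Agent.R312T.Block

set_option autoImplicit false

open Finset

namespace Pool.Agent.R312T

theorem L_facts (L : ℕ) (hL20 : 2 ^ 20 ≤ L) : L ^ 21 < 2 ^ (L - 3) := by
  set l := Nat.log 2 L + 1 with hl
  have hLl : L < 2 ^ l := Nat.lt_pow_succ_log_self (by norm_num) _
  have hlL : 2 ^ (l - 1) ≤ L := by
    have : l - 1 = Nat.log 2 L := by omega
    rw [this]
    exact Nat.pow_log_le_self 2 (by omega)
  have hl20 : 20 ≤ l := by
    have : 20 < l := (Nat.pow_lt_pow_iff_right (by norm_num)).mp (hL20.trans_lt hLl)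
    omega
  have h4 := sq_le_two_pow l hl20
  calc L ^ 21 < (2 ^ l) ^ 21 := Nat.pow_lt_pow_left hLl (by norm_num)
    _ = 2 ^ (l * 21) := by rw [← pow_mul]
    _ ≤ 2 ^ (L - 3) := by
      apply Nat.pow_le_pow_right (by norm_num)
      have : l * 21 + 3 ≤ 1150 * l ^ 2 := by nlinarith
      omega

theorem rho_one (n : ℕ) : rho n 1 = n * (n + 1) / 2 := by
  rw [rho]

/-- number of divisors with ratio at most that of `f` -/
def jj (n f : ℕ) : ℕ := (cl n (rho n f)).card

theorem jj_pos {n f : ℕ} (hf : f ∈ S' n) : 1 ≤ jj n f := by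
  rw [jj]
  exact Finset.card_pos.mpr ⟨f, by rw [mem_cl]; exact ⟨hf, le_rfl⟩⟩

theorem jj_lt {n f g : ℕ} (hf : f ∈ S' n) (hg : g ∈ S' n) (h : f < g) : jj n g < jj n f := by
  apply Finset.card_lt_card
  rw [Finset.ssubset_iff_of_subset]
  · refine ⟨f, by rw [mem_cl]; exact ⟨hf, le_rfl⟩, ?_⟩
    rw [mem_cl]
    have := rho_lt hf hg h
    omega
  · intro x hx
    rw [mem_cl] at hx ⊢
    have := rho_lt hf hg h
    exact ⟨hx.1, by omega⟩

theorem jj_injOn (n : ℕ) (F : Finset ℕ) (hF : F ⊆ S' n) : Set.InjOn (jj n) (F : Set ℕ) := by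
  intro a ha b hb h
  rw [Finset.mem_coe] at ha hb
  rcases lt_trichotomy a b with h1 | h1 | h1
  · have := jj_lt (hF ha) (hF hb) h1; omega
  · exact h1
  · have := jj_lt (hF hb) (hF ha) h1; omega

theorem sum_jj (n : ℕ) (F : Finset ℕ) (hF : F ⊆ S' n) :
    ∑ f ∈ F, 1 / ((jj n f : ℝ)) ^ 2 ≤ 2 := by
  have h1 : ∑ f ∈ F, 1 / ((jj n f : ℝ)) ^ 2 = ∑ i ∈ F.image (jj n), 1 / ((i : ℝ)) ^ 2 := by
    rw [Finset.sum_image (jj_injOn n F hF)]
  rw [h1]
  have h2 := sum_le_hasSum (F.image (jj n)) (fun i _ => by positivity) hasSum_zeta_two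
  refine h2.trans ?_
  have h3 := Real.pi_lt_d2
  have h4 := Real.pi_pos
  nlinarith

set_option exponentiation.threshold 1000 in
theorem G_bound (n L K : ℕ) (hn : 1 ≤ n) (hL : L = Nat.log 2 (4 * (n * (n + 1))))
    (hL20 : 2 ^ 20 ≤ L) (hLK : 2 ^ (K + 20) ≤ L)
    (hK : ∀ n : ℕ, n ≠ 0 → (n.divisors.card) ^ 400 ≤ K * n)
    (hfew : (cl n (L ^ 21)).card ^ 10 ≤ L ^ 21) :
    (2 * ∑ d ∈ cl n (L ^ 21), 2 ^ (Uset n d).card) ^ 400 ≤ (L ^ 21) ^ 80 := by
  set Z := L ^ 21 with hZ
  have hnW : n ∈ cl n Z := by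
    rw [mem_cl]
    refine ⟨self_mem hn, ?_⟩
    rw [rho_self hn]
    exact Nat.one_le_pow _ _ (by omega)
  obtain ⟨d0, hd0, hmax⟩ := Finset.exists_max_image (cl n Z) (fun d => 2 ^ (Uset n d).card) ⟨n, hnW⟩
  have h1 : ∑ d ∈ cl n Z, 2 ^ (Uset n d).card ≤ (cl n Z).card * 2 ^ (Uset n d0).card := by
    rw [← smul_eq_mul]
    exact Finset.sum_le_card_nsmul _ _ _ hmax
  have hd0' := hd0
  rw [mem_cl] at hd0'
  have hr0 : rho n d0 ≠ 0 := by have := rho_pos hd0'.1; omega
  have h2 : 2 ^ (Uset n d0).card ≤ (rho n d0).divisors.card :=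
    (Nat.pow_le_pow_right (by norm_num) (Uset_card n L hn hL hL20 d0 hd0)).trans
      (two_pow_omega_le _ hr0)
  have h3 : (2 ^ (Uset n d0).card) ^ 400 ≤ K * Z :=
    (Nat.pow_le_pow_left h2 _).trans ((hK _ hr0).trans (Nat.mul_le_mul_left _ hd0'.2))
  have hKZ : 2 ^ 400 * K ≤ Z ^ 39 := by
    calc 2 ^ 400 * K ≤ 2 ^ 400 * 2 ^ K := Nat.mul_le_mul_left _ (Nat.lt_two_pow_self).le
      _ = 2 ^ (400 + K) := by rw [pow_add]
      _ ≤ 2 ^ ((K + 20) * 39) := Nat.pow_le_pow_right (by norm_num) (by omega)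
      _ = (2 ^ (K + 20)) ^ 39 := by rw [← pow_mul]
      _ ≤ Z ^ 39 := by
        apply Nat.pow_le_pow_left
        exact hLK.trans (Nat.le_self_pow (by norm_num) L)
  calc (2 * ∑ d ∈ cl n Z, 2 ^ (Uset n d).card) ^ 400
      ≤ (2 * ((cl n Z).card * 2 ^ (Uset n d0).card)) ^ 400 :=
        Nat.pow_le_pow_left (Nat.mul_le_mul_left _ h1) _
    _ = 2 ^ 400 * ((cl n Z).card ^ 10) ^ 40 * (2 ^ (Uset n d0).card) ^ 400 := by
        rw [mul_pow, mul_pow, ← pow_mul]; ring
    _ ≤ 2 ^ 400 * Z ^ 40 * (K * Z) := by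
        apply Nat.mul_le_mul _ h3
        apply Nat.mul_le_mul_left
        exact Nat.pow_le_pow_left hfew _
    _ = (2 ^ 400 * K) * Z ^ 41 := by ring
    _ ≤ Z ^ 39 * Z ^ 41 := Nat.mul_le_mul_right _ hKZ
    _ = Z ^ 80 := by rw [← pow_add]

theorem growth (a : ℕ → ℝ) (ha0 : ∀ n, 0 ≤ a n) (ha : ∀ n, 2 ≤ n → a n ≤ ∑ d ∈ S n, a d) :
    ∃ K0 : ℝ, 0 < K0 ∧ ∀ n : ℕ, 1 ≤ n → a n ≤ K0 * ((n * (n + 1) : ℕ) : ℝ) ^ (2 / 5 : ℝ) := by
  obtain ⟨L0, hL0, hfew⟩ := few
  obtain ⟨K, hK⟩ := divisor_bound 400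
  set L1 := max L0 (2 ^ (K + 20)) with hL1
  set n0 := 2 ^ L1 with hn0
  set K0 : ℝ := ∑ d ∈ range n0, a d + 1 with hK0
  have hK0pos : 0 < K0 := by
    have : 0 ≤ ∑ d ∈ range n0, a d := Finset.sum_nonneg (fun i _ => ha0 i)
    rw [hK0]; linarith
  refine ⟨K0, hK0pos, ?_⟩
  intro n
  induction n using Nat.strong_induction_on with
  | _ n ih =>
    intro hn
    have htn : (1:ℝ) ≤ ((n * (n + 1) : ℕ) : ℝ) := by
      have : 1 ≤ n * (n + 1) := Nat.succ_le_of_lt (by positivity)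
      exact_mod_cast this
    rcases lt_or_ge n n0 with hlt | hge
    · have h1 : a n ≤ ∑ d ∈ range n0, a d :=
        Finset.single_le_sum (f := a) (fun i _ => ha0 i) (Finset.mem_range.mpr hlt)
      have h2 : (1:ℝ) ≤ ((n * (n + 1) : ℕ) : ℝ) ^ (2 / 5 : ℝ) :=
        Real.one_le_rpow htn (by norm_num)
      have h3 : a n ≤ K0 := by rw [hK0]; linarith
      calc a n ≤ K0 * 1 := by rw [mul_one]; exact h3
        _ ≤ _ := mul_le_mul_of_nonneg_left h2 hK0pos.le
    · set L := Nat.log 2 (4 * (n * (n + 1))) with hL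
      have hLL1 : L1 ≤ L := by
        rw [hL]
        apply Nat.le_log_of_pow_le (by norm_num)
        calc 2 ^ L1 ≤ n := hge
          _ ≤ 4 * (n * (n + 1)) := by nlinarith
      have hL20 : 2 ^ 20 ≤ L := hL0.trans ((le_max_left _ _).trans hLL1)
      have hLK : 2 ^ (K + 20) ≤ L := (le_max_right _ _).trans hLL1
      have hLL0 : L0 ≤ L := (le_max_left _ _).trans hLL1
      set Z := L ^ 21 with hZ
      have hZ1 : 1 ≤ Z := Nat.one_le_pow _ _ (by omega)
      have hZr : Z < rho n 1 := by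
        rw [rho_one]
        have h1 := L_facts L hL20
        have h2 : 2 ^ L ≤ 4 * (n * (n + 1)) := by
          rw [hL]; exact Nat.pow_log_le_self 2 (by positivity)
        have h3 : 2 ^ L = 8 * 2 ^ (L - 3) := by
          have : L = (L - 3) + 3 := by omega
          conv_lhs => rw [this, pow_add]
          norm_num; ring
        omega
      have hblock := block a ha0 ha n Z hn hZ1 hZr
      have hG := G_bound n L K hn hL hL20 hLK hK (hfew n hn hLL0 _ le_rfl)
      rw [← hZ] at hG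
      set G : ℝ := ∑ d ∈ cl n Z, (2:ℝ) ^ (Uset n d).card with hGdef
      have hG0 : 0 ≤ G := Finset.sum_nonneg (fun i _ => by positivity)
      set s : ℝ := (Z : ℝ) ^ (1 / 5 : ℝ) with hs
      have hZpos : (0:ℝ) < Z := by exact_mod_cast hZ1
      have hspos : 0 < s := Real.rpow_pos_of_pos hZpos _
      have hs5 : s ^ 5 = Z := by
        rw [hs, ← Real.rpow_natCast, ← Real.rpow_mul hZpos.le]
        norm_num
      have hGs : 2 * G ≤ s := by
        have h1 : (2 * G) ^ 400 ≤ s ^ 400 := by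
          have e1 : s ^ 400 = (Z : ℝ) ^ 80 := by
            rw [← hs5, ← pow_mul]
          rw [e1]
          have e2 : (((2 * ∑ d ∈ cl n Z, 2 ^ (Uset n d).card) ^ 400 : ℕ) : ℝ) ≤ ((Z ^ 80 : ℕ) : ℝ) := by
            exact_mod_cast hG
          push_cast at e2
          exact e2
        exact le_of_pow_le_pow_left₀ (by norm_num) hspos.le h1
      set F := (S n).filter (fun f => Z < rho n f) with hF
      have hFS : F ⊆ S' n := (Finset.filter_subset _ _).trans (S_sub n)
      set tn : ℝ := ((n * (n + 1) : ℕ) : ℝ) ^ (2 / 5 : ℝ) with htn'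
      have htnpos : 0 < tn := Real.rpow_pos_of_pos (by linarith) _
      have hterm : ∀ f ∈ F, a f ≤ K0 * (tn / s) * (1 / (jj n f : ℝ) ^ 2) := by
        intro f hf
        have hf' := hf
        rw [hF, Finset.mem_filter] at hf'
        have hfS := hf'.1
        rw [mem_S] at hfS
        have h1 := ih f hfS.1.2 hfS.1.1
        have hr := rho_mul (hFS hf)
        have hrpos := rho_pos (hFS hf)
        have hrR : (0:ℝ) < (rho n f : ℝ) := by exact_mod_cast hrpos
        have htf : (0:ℝ) < ((f * (f + 1) : ℕ) : ℝ) := by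
          have : 0 < f * (f + 1) := Nat.mul_pos (by omega) (by omega)
          exact_mod_cast this
        have htneq : tn = (rho n f : ℝ) ^ (2 / 5 : ℝ) * ((f * (f + 1) : ℕ) : ℝ) ^ (2 / 5 : ℝ) := by
          rw [htn', ← Real.mul_rpow hrR.le htf.le]
          congr 1
          exact_mod_cast hr.symm
        have hj := hfew n hn hLL0 (rho n f) (by
          have := hf'.2
          exact this.le)
        have hjR : ((jj n f : ℝ)) ^ 10 ≤ (rho n f : ℝ) := by
          have : (jj n f) ^ 10 ≤ rho n f := hj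
          exact_mod_cast this
        have hj1 : (1:ℝ) ≤ (jj n f : ℝ) := by exact_mod_cast jj_pos (hFS hf)
        set r5 : ℝ := (rho n f : ℝ) ^ (1 / 5 : ℝ) with hr5
        have hr55 : r5 ^ 5 = rho n f := by
          rw [hr5, ← Real.rpow_natCast, ← Real.rpow_mul hrR.le]
          norm_num
        have hr5pos : 0 < r5 := Real.rpow_pos_of_pos hrR _
        have hr2 : (rho n f : ℝ) ^ (2 / 5 : ℝ) = r5 * r5 := by
          rw [hr5, ← Real.rpow_add hrR]
          norm_num
        have hsr : s ≤ r5 := by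
          rw [hs, hr5]
          apply Real.rpow_le_rpow hZpos.le _ (by norm_num)
          have := hf'.2
          exact_mod_cast this.le
        have hjr : (jj n f : ℝ) ^ 2 ≤ r5 := by
          have : ((jj n f : ℝ) ^ 2) ^ 5 ≤ r5 ^ 5 := by
            rw [hr55, ← pow_mul]
            exact hjR
          exact le_of_pow_le_pow_left₀ (by norm_num) hr5pos.le this
        have hprod : s * (jj n f : ℝ) ^ 2 * ((f * (f + 1) : ℕ) : ℝ) ^ (2 / 5 : ℝ) ≤ tn := by
          rw [htneq, hr2]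
          apply mul_le_mul_of_nonneg_right _ (Real.rpow_nonneg htf.le _)
          exact mul_le_mul hsr hjr (by positivity) hr5pos.le
        have hj2 : (0:ℝ) < (jj n f : ℝ) ^ 2 := by positivity
        calc a f ≤ K0 * ((f * (f + 1) : ℕ) : ℝ) ^ (2 / 5 : ℝ) := h1
          _ ≤ K0 * ((tn / s) * (1 / (jj n f : ℝ) ^ 2)) := by
              apply mul_le_mul_of_nonneg_left _ hK0pos.le
              rw [mul_one_div, div_div, le_div_iff₀ (by positivity)]
              linarith
          _ = _ := by ring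
      have hY : ∑ f ∈ F, a f ≤ K0 * (tn / s) * 2 := by
        refine (Finset.sum_le_sum hterm).trans ?_
        rw [← Finset.mul_sum]
        apply mul_le_mul_of_nonneg_left (sum_jj n F hFS)
        positivity
      calc a n ≤ G * ∑ f ∈ F, a f := hblock
        _ ≤ G * (K0 * (tn / s) * 2) := mul_le_mul_of_nonneg_left hY hG0
        _ = (2 * G) * (K0 * tn / s) := by ring
        _ ≤ s * (K0 * tn / s) := by
            apply mul_le_mul_of_nonneg_right hGs
            positivity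
        _ = K0 * tn := by field_simp

end Pool.Agent.R312T
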