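import Pool.Agent.R312T.Sqrt

set_option autoImplicit false

open Finset Polynomial

namespace Pool.Agent.R312T

/-- the polynomial `∏ (1 + 4 m X)` -/
noncomputable def ff (D : Finset ℕ) : ℤ[X] := ∏ m ∈ D, (1 + C (4 * (m : ℤ)) * X)

theorem ff_insert (D : Finset ℕ) (a : ℕ) (ha : a ∉ D) :
    ff (insert a D) = (1 + C (4 * (a : ℤ)) * X) * ff D := by
  rw [ff, Finset.prod_insert ha, ff]

theorem ff_form (D : Finset ℕ) : ∃ h : ℤ[X], ff D = 1 + 4 * h := by
  induction D using Finset.induction_on with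
  | empty => exact ⟨0, by simp [ff]⟩
  | insert a D ha ih =>
    obtain ⟨h, hh⟩ := ih
    refine ⟨h + C (a : ℤ) * X * (1 + 4 * h), ?_⟩
    rw [ff_insert D a ha, hh]
    have : (C (4 * (a : ℤ)) : ℤ[X]) = 4 * C (a : ℤ) := by
      rw [C_mul]; rfl
    rw [this]
    ring

theorem ff_coeff_zero (D : Finset ℕ) : (ff D).coeff 0 = 1 := by
  rw [coeff_zero_eq_eval_zero, ff, eval_prod]
  simp

theorem ff_natDegree (D : Finset ℕ) : (ff D).natDegree ≤ D.card := by
  rw [ff]
  refine (natDegree_prod_le _ _).trans ?_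
  rw [Finset.card_eq_sum_ones]
  apply Finset.sum_le_sum
  intro m _
  refine (natDegree_add_le _ _).trans ?_
  simp only [natDegree_one, zero_le, sup_of_le_right]
  refine (natDegree_C_mul_le _ _).trans ?_
  exact natDegree_X_le

theorem ff_coeff (D : Finset ℕ) (X : ℕ) (hX : ∀ m ∈ D, m ≤ X) (t : ℕ) :
    |(ff D).coeff t| ≤ ((4 * D.card * X : ℕ) : ℤ) ^ t := by
  induction D using Finset.induction_on generalizing t with
  | empty =>
    simp only [ff, Finset.prod_empty, Finset.card_empty]
    rw [coeff_one]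
    split_ifs with h
    · subst h; simp
    · simp only [abs_zero]; positivity
  | insert a D ha ih =>
    have ih' := ih (fun m hm => hX m (Finset.mem_insert_of_mem hm))
    rw [ff_insert D a ha, Finset.card_insert_of_notMem ha]
    have hE : ((1 + C (4 * (a : ℤ)) * Polynomial.X) * ff D).coeff t =
        (ff D).coeff t + (4 * (a : ℤ)) * (Polynomial.X * ff D).coeff t := by
      rw [add_mul, one_mul, coeff_add, mul_assoc, coeff_C_mul]
    rw [hE]
    match t with
    | 0 =>
      rw [coeff_X_mul_zero]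
      simp [ff_coeff_zero]
    | (s + 1) =>
      rw [coeff_X_mul]
      have e1 := ih' (s + 1)
      have e2 := ih' s
      set B : ℤ := ((4 * D.card * X : ℕ) : ℤ) with hB
      have hB0 : 0 ≤ B := by rw [hB]; positivity
      have haX : (a : ℤ) ≤ X := by exact_mod_cast hX a (Finset.mem_insert_self _ _)
      have hX0 : (0:ℤ) ≤ X := by positivity
      have ha0 : (0:ℤ) ≤ a := by positivity
      have hB2 : ((4 * (D.card + 1) * X : ℕ) : ℤ) = B + 4 * X := by
        rw [hB]; push_cast; ring
      rw [hB2]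
      calc |(ff D).coeff (s + 1) + 4 * (a : ℤ) * (ff D).coeff s|
          ≤ |(ff D).coeff (s + 1)| + |4 * (a : ℤ) * (ff D).coeff s| := abs_add_le _ _
        _ = |(ff D).coeff (s + 1)| + 4 * (a : ℤ) * |(ff D).coeff s| := by
            rw [abs_mul, abs_of_nonneg (by positivity : (0:ℤ) ≤ 4 * (a:ℤ))]
        _ ≤ B ^ (s + 1) + 4 * X * B ^ s := by
            apply add_le_add e1
            apply mul_le_mul _ e2 (abs_nonneg _) (by positivity)
            linarith
        _ = (B + 4 * X) * B ^ s := by ring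
        _ ≤ (B + 4 * X) * (B + 4 * X) ^ s := by
            apply mul_le_mul_of_nonneg_left _ (by positivity)
            apply pow_le_pow_left₀ hB0
            linarith
        _ = (B + 4 * X) ^ (s + 1) := by ring

theorem ff_not_sq (D : Finset ℕ) (hD : D.Nonempty) (h1 : ∀ m ∈ D, 1 ≤ m) (g : ℤ[X])
    (hg : ff D = g * g) : False := by
  obtain ⟨a, ha⟩ := hD
  have ha1 := h1 a ha
  have ha0 : (a : ℝ) ≠ 0 := by
    have : (0:ℝ) < a := by exact_mod_cast ha1
    exact this.ne'
  set y : ℝ := -1 / (4 * a) with hy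
  have hsplit : ff D = (1 + C (4 * (a : ℤ)) * X) * ff (D.erase a) := by
    rw [← ff_insert _ _ (Finset.notMem_erase _ _), Finset.insert_erase ha]
  have hy1 : aeval y (1 + C (4 * (a : ℤ)) * X : ℤ[X]) = 0 := by
    simp only [map_add, map_one, map_mul, aeval_X, aeval_C]
    rw [hy]
    simp
    field_simp
    ring
  have hf0 : aeval y (ff D) = 0 := by
    rw [hsplit, map_mul, hy1, zero_mul]
  have hg0 : aeval y g = 0 := by
    rw [hg, map_mul] at hf0
    exact mul_self_eq_zero.mp hf0
  have hd1 : aeval y (derivative (ff D)) = 0 := by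
    rw [hg, derivative_mul, map_add, map_mul, map_mul, hg0]
    simp
  have hd2 : aeval y (derivative (ff D)) = 4 * a * aeval y (ff (D.erase a)) := by
    rw [hsplit, derivative_mul, map_add, map_mul (aeval y) (derivative _) _,
      map_mul (aeval y) (1 + _) _, hy1]
    simp
    left
    left
    exact map_ofNat (aeval y) 4
  have hne : aeval y (ff (D.erase a)) ≠ 0 := by
    rw [ff, map_prod]
    rw [Finset.prod_ne_zero_iff]
    intro m hm
    rw [Finset.mem_erase] at hm
    simp only [map_add, map_one, map_mul, aeval_X, aeval_C]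
    rw [hy]
    simp
    intro h
    have h2 : (m : ℝ) = a := by
      field_simp at h
      linarith
    exact hm.1 (by exact_mod_cast h2)
  rw [hd2] at hd1
  have : (4 * (a : ℝ)) ≠ 0 := by positivity
  exact (mul_ne_zero this hne) hd1

theorem half_le_of {x c : ℝ} (hx : 0 < x) (h : x / 2 ≤ x * c) : 1 / 2 ≤ c := by
  by_contra hcon
  push Not at hcon
  nlinarith

theorem one_le_of {x c : ℝ} (hx : 0 < x) (h : x ≤ x * c) : 1 ≤ c := by
  by_contra hcon
  push Not at hcon
  nlinarith

theorem half_le_abs_mul {x a b c : ℝ} (hb : 0 ≤ b) (hc : x / 2 ≤ c) (hc0 : 0 < c)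
    (ha : 1 ≤ |a|) : x / 2 ≤ |a| * (b + c) := by
  nlinarith

theorem le_abs_mul {x a : ℝ} (hx : 0 < x) (ha : 1 ≤ |a|) : x ≤ |a| * x := by
  nlinarith

theorem alg1 (Q y H : ℝ) (j : ℕ) (hQy : Q * y = 1) :
    Q ^ (2 * j) * (j * (H * y) ^ (j + 1)) = Q ^ j * (j * H ^ (j + 1) * y) := by
  rw [mul_pow, two_mul, pow_add Q, pow_succ y]
  have : Q ^ j * y ^ j = 1 := by rw [← mul_pow, hQy, one_pow]
  calc Q ^ j * Q ^ j * (j * (H ^ (j + 1) * (y ^ j * y)))
      = Q ^ j * (j * H ^ (j + 1) * y) * (Q ^ j * y ^ j) := by ring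
    _ = _ := by rw [this, mul_one]

theorem alg2 (H : ℝ) (j : ℕ) (hj : 1 ≤ j) (hH : 1 ≤ H) (hHj : (2 * j : ℝ) ≤ H) :
    (2 * j) * H ^ (j + 1) ≤ H ^ (2 * j + 1) := by
  have e1 : H ^ (j + 1) ≤ H ^ (2 * j) := pow_le_pow_right₀ hH (by omega)
  calc (2 * j) * H ^ (j + 1) ≤ H * H ^ (2 * j) := by
        apply mul_le_mul hHj e1 (by positivity) (by positivity)
    _ = _ := by ring

theorem sum_range_split_bound (b : ℕ → ℝ) (j : ℕ) (M : ℝ)
    (h0 : ∀ t, t ≤ j → b t = 0) (h1 : ∀ t, j < t → t ≤ 2 * j → |b t| ≤ M) :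
    |∑ t ∈ range (2 * j + 1), b t| ≤ j * M := by
  refine (Finset.abs_sum_le_sum_abs _ _).trans ?_
  have e : 2 * j + 1 = (j + 1) + j := by ring
  rw [e, Finset.sum_range_add]
  have z : ∑ t ∈ range (j + 1), |b t| = 0 := by
    apply Finset.sum_eq_zero
    intro t ht
    rw [Finset.mem_range] at ht
    rw [h0 t (by omega), abs_zero]
  rw [z, zero_add]
  calc ∑ t ∈ range j, |b (j + 1 + t)| ≤ ∑ t ∈ range j, M := by
        apply Finset.sum_le_sum
        intro t ht
        rw [Finset.mem_range] at ht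
        exact h1 _ (by omega) (by omega)
    _ = j * M := by simp

/-- Runge-type statement: a product of an even number of distinct small shifts of a large
number is never a square. -/
theorem runge (D : Finset ℕ) (j X q : ℕ) (hj : 1 ≤ j) (hcard : D.card = 2 * j)
    (h1 : ∀ m ∈ D, 1 ≤ m) (hX : ∀ m ∈ D, m ≤ X)
    (hq : (512 * j * X) ^ (2 * j + 1) ≤ q) (W : ℕ) : ∏ m ∈ D, (q + m) ≠ W * W := by
  intro hW
  have hDne : D.Nonempty := by
    rw [← Finset.card_pos]; omega
  have hX1 : 1 ≤ X := by
    obtain ⟨a, ha⟩ := hDne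
    exact (h1 a ha).trans (hX a ha)
  obtain ⟨hp, hhp⟩ := ff_form D
  set hs : ℕ → ℤ := fun t => hp.coeff t with hhs
  have hcoef : ∀ t, (ff D).coeff t = (if t = 0 then 1 else 0) + 4 * hs t := by
    intro t
    rw [hhp, coeff_add, coeff_one]
    congr 1
    exact coeff_ofNat_mul (p := hp) (a := 4)
  have hs0 : hs 0 = 0 := by
    have := hcoef 0
    rw [ff_coeff_zero] at this
    simp at this
    linarith
  set A : ℕ := 4 * D.card * X with hA
  have hA1 : 1 ≤ A := by
    rw [hA]
    have : 0 < D.card := by omega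
    exact Nat.succ_le_of_lt (by positivity)
  have hbd : ∀ t, 1 ≤ t → 4 * |hs t| ≤ (A : ℤ) ^ t := by
    intro t ht
    have e := ff_coeff D X hX t
    rw [hcoef t, if_neg (by omega), zero_add, abs_mul] at e
    have e4 : |(4:ℤ)| = 4 := by norm_num
    rw [e4] at e
    exact e
  set k : ℕ → ℤ := kk hs with hk
  set gs : ℕ → ℤ := fun t => (if t = 0 then 1 else 0) + 2 * k t with hgs
  have hk0 : k 0 = 0 := kk_zero hs
  have hgs0 : gs 0 = 1 := by simp [hgs, hk0]
  have hgsb : ∀ t, |gs t| ≤ (16 * A : ℤ) ^ t := by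
    intro t
    rcases Nat.eq_zero_or_pos t with h | h
    · subst h; simp [hgs0]
    · simp only [hgs]
      rw [if_neg (by omega), zero_add, abs_mul]
      have := kk_bound' hs A hbd t h
      simpa using this
  have hconv : ∀ t, ∑ p ∈ antidiagonal t, gs p.1 * gs p.2 = (ff D).coeff t := by
    intro t
    have e1 : ∀ p ∈ antidiagonal t, gs p.1 * gs p.2 =
        (if p.1 = 0 then (if t = 0 then 1 else 0) + 2 * k t else 0) +
        (if p.2 = 0 then 2 * k t else 0) + 4 * (k p.1 * k p.2) := by
      intro p hp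
      rw [HasAntidiagonal.mem_antidiagonal] at hp
      simp only [hgs]
      by_cases ha : p.1 = 0
      · by_cases hb : p.2 = 0
        · have : t = 0 := by omega
          simp [ha, hb, this, hk0]
        · have ht : p.2 = t := by omega
          simp [ha, ht, hk0]
          intro h
          omega
      · by_cases hb : p.2 = 0
        · have ht : p.1 = t := by omega
          have ht0 : t ≠ 0 := by omega
          simp [hb, ht, ht0, hk0]
        · simp [ha, hb]
          ring
    rw [Finset.sum_congr rfl e1, Finset.sum_add_distrib, Finset.sum_add_distrib,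
      ← Finset.mul_sum]
    have s1 : ∑ p ∈ antidiagonal t, (if p.1 = 0 then (if t = 0 then (1:ℤ) else 0) + 2 * k t else 0)
        = (if t = 0 then (1:ℤ) else 0) + 2 * k t := by
      rw [Finset.sum_eq_single (0, t)]
      · simp
      · intro p hp hne
        rw [HasAntidiagonal.mem_antidiagonal] at hp
        rw [if_neg]
        intro h
        apply hne
        ext
        · simpa using h
        · simp; omega
      · intro h
        exact absurd (by simp) h
    have s2 : ∑ p ∈ antidiagonal t, (if p.2 = 0 then 2 * k t else 0) = 2 * k t := by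
      rw [Finset.sum_eq_single (t, 0)]
      · simp
      · intro p hp hne
        rw [HasAntidiagonal.mem_antidiagonal] at hp
        rw [if_neg]
        intro h
        apply hne
        ext
        · simp; omega
        · simpa using h
      · intro h
        exact absurd (by simp) h
    rw [s1, s2, hcoef t]
    have := kk_eq hs hs0 t
    rw [← hk] at this
    linarith
  -- the truncated square root
  set g : ℤ[X] := ∑ t ∈ range (j + 1), C (gs t) * Polynomial.X ^ t with hg
  have hgc : ∀ t, g.coeff t = if t < j + 1 then gs t else 0 := by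
    intro t
    rw [hg, finsetSum_coeff]
    simp only [coeff_C_mul, coeff_X_pow, mul_ite, mul_one, mul_zero, Finset.sum_ite_eq,
      Finset.mem_range]
  set P : ℤ[X] := ff D - g * g with hP
  have hP0 : ∀ t, t ≤ j → P.coeff t = 0 := by
    intro t ht
    rw [hP, coeff_sub, coeff_mul, ← hconv t, sub_eq_zero]
    apply Finset.sum_congr rfl
    intro p hp
    rw [HasAntidiagonal.mem_antidiagonal] at hp
    rw [hgc, hgc, if_pos (by omega), if_pos (by omega)]
  have hA0 : (0:ℤ) ≤ A := by positivity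
  have hgcb : ∀ t, |g.coeff t| ≤ (16 * A : ℤ) ^ t := by
    intro t
    rw [hgc]
    split_ifs
    · exact hgsb t
    · rw [abs_zero]; positivity
  have hPb : ∀ t, 1 ≤ t → |P.coeff t| ≤ (64 * A : ℤ) ^ t := by
    intro t ht
    rw [hP, coeff_sub, coeff_mul]
    have e1 : |(ff D).coeff t| ≤ (16 * A : ℤ) ^ t := by
      refine (ff_coeff D X hX t).trans ?_
      rw [← hA]
      apply pow_le_pow_left₀ hA0
      linarith
    have e2 : |∑ p ∈ antidiagonal t, g.coeff p.1 * g.coeff p.2| ≤ (t + 1) * (16 * A : ℤ) ^ t := by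
      refine (Finset.abs_sum_le_sum_abs _ _).trans ?_
      have : ∀ p ∈ antidiagonal t, |g.coeff p.1 * g.coeff p.2| ≤ (16 * A : ℤ) ^ t := by
        intro p hp
        rw [HasAntidiagonal.mem_antidiagonal] at hp
        rw [abs_mul, ← hp, pow_add]
        exact mul_le_mul (hgcb _) (hgcb _) (abs_nonneg _) (by positivity)
      refine (Finset.sum_le_sum this).trans ?_
      rw [Finset.sum_const, Finset.Nat.card_antidiagonal]
      simp
    have e3 : ((t : ℤ) + 2) ≤ 4 ^ t := by
      have : t + 2 ≤ 4 ^ t := by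
        clear e1 e2
        induction t with
        | zero => omega
        | succ s ih =>
          rcases Nat.eq_zero_or_pos s with h | h
          · subst h; norm_num
          · have := ih h
            rw [pow_succ]; omega
      exact_mod_cast this
    calc |(ff D).coeff t - ∑ p ∈ antidiagonal t, g.coeff p.1 * g.coeff p.2|
        ≤ |(ff D).coeff t| + |∑ p ∈ antidiagonal t, g.coeff p.1 * g.coeff p.2| := abs_sub _ _
      _ ≤ (16 * A : ℤ) ^ t + (t + 1) * (16 * A : ℤ) ^ t := add_le_add e1 e2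
      _ = ((t : ℤ) + 2) * (16 * A : ℤ) ^ t := by ring
      _ ≤ 4 ^ t * (16 * A : ℤ) ^ t := by
          apply mul_le_mul_of_nonneg_right e3 (by positivity)
      _ = _ := by rw [← mul_pow]; ring
  have hgdeg : g.natDegree ≤ j := by
    rw [hg]
    apply natDegree_sum_le_of_forall_le
    intro t ht
    rw [Finset.mem_range] at ht
    refine (natDegree_C_mul_X_pow_le _ _).trans (by omega)
  have hPdeg : P.natDegree < 2 * j + 1 := by
    have e1 : (ff D).natDegree ≤ 2 * j := by
      rw [← hcard]; exact ff_natDegree D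
    have e2 : (g * g).natDegree ≤ 2 * j := by
      refine natDegree_mul_le.trans (by omega)
    have := natDegree_sub_le (ff D) (g * g)
    rw [← hP] at this
    omega
  have hPne : P ≠ 0 := by
    intro h
    rw [hP, sub_eq_zero] at h
    exact ff_not_sq D hDne h1 g h
  -- numbers
  set H : ℕ := 64 * A with hH
  have hHA : H = 512 * j * X := by
    rw [hH, hA, hcard]; ring
  have hH1 : 1 ≤ H := by omega
  have hH2j : 2 * j ≤ H := by
    rw [hHA]
    nlinarith
  have hq1 : 1 ≤ q := le_trans (by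
    rw [← hHA]
    exact Nat.one_le_pow _ _ hH1) hq
  set Q : ℝ := 4 * (q : ℝ) with hQ
  have hQpos : 0 < Q := by rw [hQ]; positivity
  have hHR : (1:ℝ) ≤ H := by exact_mod_cast hH1
  have hQH : (H : ℝ) ^ (2 * j + 1) < Q := by
    rw [← hHA] at hq
    have : (H : ℝ) ^ (2 * j + 1) ≤ q := by exact_mod_cast hq
    have hq1' : (1:ℝ) ≤ q := by exact_mod_cast hq1
    rw [hQ]; linarith
  have hHj : (2 * j : ℝ) ≤ H := by exact_mod_cast hH2j
  have hj1 : (1:ℝ) ≤ j := by exact_mod_cast hj
  have hHQ : (H : ℝ) ≤ Q := by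
    have : (H : ℝ) ≤ (H : ℝ) ^ (2 * j + 1) := le_self_pow₀ hHR (by omega)
    linarith
  set y : ℝ := 1 / Q with hy
  have hypos : 0 < y := by positivity
  have hQy : Q * y = 1 := by rw [hy]; field_simp
  have hPev : aeval y P = ∑ t ∈ range (2 * j + 1), (P.coeff t : ℝ) * y ^ t := by
    rw [aeval_eq_sum_range' hPdeg]
    simp
  have hevbound : |aeval y P| ≤ j * ((H : ℝ) * y) ^ (j + 1) := by
    rw [hPev]
    apply sum_range_split_bound _ j _
    · intro t ht
      rw [hP0 t ht]; simp
    · intro t ht1 ht2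
      rw [abs_mul, abs_of_nonneg (by positivity : (0:ℝ) ≤ y ^ t)]
      have e1 : |(P.coeff t : ℝ)| ≤ (H : ℝ) ^ t := by
        have := hPb t (by omega)
        have h2 : ((|P.coeff t| : ℤ) : ℝ) ≤ (((64 * A : ℤ) ^ t : ℤ) : ℝ) := by exact_mod_cast this
        rw [Int.cast_abs] at h2
        refine h2.trans (le_of_eq ?_)
        rw [hH]; push_cast; ring
      calc |(P.coeff t : ℝ)| * y ^ t ≤ (H : ℝ) ^ t * y ^ t := by
            apply mul_le_mul_of_nonneg_right e1 (by positivity)
        _ = ((H : ℝ) * y) ^ t := by rw [mul_pow]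
        _ ≤ ((H : ℝ) * y) ^ (j + 1) := by
            apply pow_le_pow_of_le_one (by positivity) _ (by omega)
            rw [hy, mul_one_div, div_le_one hQpos]
            exact hHQ
  set W' : ℤ := 2 ^ (2 * j) * (W : ℤ) with hW'
  have hevf : Q ^ (2 * j) * aeval y (ff D) = (W' : ℝ) ^ 2 := by
    have e1 : aeval y (ff D) = ∏ m ∈ D, (1 + 4 * (m : ℝ) * y) := by
      rw [ff, map_prod]
      apply Finset.prod_congr rfl
      intro m _
      simp only [map_add, map_one, map_mul, aeval_X, aeval_C]
      simp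
    have e2 : Q ^ (2 * j) * ∏ m ∈ D, (1 + 4 * (m : ℝ) * y) = ∏ m ∈ D, (4 * ((q : ℝ) + m)) := by
      rw [← hcard, ← Finset.prod_const, ← Finset.prod_mul_distrib]
      apply Finset.prod_congr rfl
      intro m _
      have : Q * (1 + 4 * (m : ℝ) * y) = Q + 4 * m * (Q * y) := by ring
      rw [this, hQy, hQ]; ring
    rw [e1, e2, Finset.prod_mul_distrib, Finset.prod_const, hcard]
    have e3 : ∏ m ∈ D, ((q : ℝ) + m) = (W : ℝ) * W := by
      have : ((∏ m ∈ D, (q + m) : ℕ) : ℝ) = ((W * W : ℕ) : ℝ) := by rw [hW]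
      push_cast at this
      exact this
    rw [e3, hW']
    push_cast
    have : (4:ℝ) ^ (2 * j) = 2 ^ (2 * j) * 2 ^ (2 * j) := by
      rw [← mul_pow]; norm_num
    rw [this]; ring
  set G : ℤ := ∑ t ∈ range (j + 1), gs t * (4 * (q : ℤ)) ^ (j - t) with hG
  have hevg : Q ^ j * aeval y g = (G : ℝ) := by
    have e1 : aeval y g = ∑ t ∈ range (j + 1), (gs t : ℝ) * y ^ t := by
      rw [hg, map_sum]
      apply Finset.sum_congr rfl
      intro t _
      simp
    rw [e1, hG, Finset.mul_sum]
    push_cast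
    apply Finset.sum_congr rfl
    intro t ht
    rw [Finset.mem_range] at ht
    have : Q ^ j = Q ^ (j - t) * Q ^ t := by
      rw [← pow_add]; congr 1; omega
    have h2 : Q ^ t * y ^ t = 1 := by rw [← mul_pow, hQy, one_pow]
    calc Q ^ j * ((gs t : ℝ) * y ^ t) = (gs t : ℝ) * Q ^ (j - t) * (Q ^ t * y ^ t) := by
          rw [this]; ring
      _ = _ := by rw [h2, mul_one, hQ]
  have hgev : 1 / 2 ≤ aeval y g := by
    have e1 : aeval y g = ∑ t ∈ range (j + 1), (gs t : ℝ) * y ^ t := by
      rw [hg, map_sum]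
      apply Finset.sum_congr rfl
      intro t _
      simp
    rw [e1, Finset.sum_range_succ']
    simp only [hgs0, Int.cast_one, pow_zero, mul_one]
    have e2 : |∑ t ∈ range j, (gs (t + 1) : ℝ) * y ^ (t + 1)| ≤ 1 / 2 := by
      refine (Finset.abs_sum_le_sum_abs _ _).trans ?_
      have e3 : ∀ t ∈ range j, |(gs (t + 1) : ℝ) * y ^ (t + 1)| ≤ (H : ℝ) * y := by
        intro t _
        rw [abs_mul, abs_of_nonneg (by positivity : (0:ℝ) ≤ y ^ (t + 1))]
        have e4 : |(gs (t + 1) : ℝ)| ≤ (H : ℝ) ^ (t + 1) := by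
          have := hgsb (t + 1)
          have h2 : ((|gs (t + 1)| : ℤ) : ℝ) ≤ (((16 * A : ℤ) ^ (t + 1) : ℤ) : ℝ) := by
            exact_mod_cast this
          rw [Int.cast_abs] at h2
          refine h2.trans ?_
          push_cast
          apply pow_le_pow_left₀ (by positivity)
          rw [hH]; push_cast
          have : (0:ℝ) ≤ A := by positivity
          linarith
        calc |(gs (t + 1) : ℝ)| * y ^ (t + 1) ≤ (H : ℝ) ^ (t + 1) * y ^ (t + 1) := by
              apply mul_le_mul_of_nonneg_right e4 (by positivity)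
          _ = ((H : ℝ) * y) ^ (t + 1) := by rw [mul_pow]
          _ ≤ ((H : ℝ) * y) ^ 1 := by
              apply pow_le_pow_of_le_one (by positivity) _ (by omega)
              rw [hy, mul_one_div, div_le_one hQpos]
              exact hHQ
          _ = _ := pow_one _
      refine (Finset.sum_le_sum e3).trans ?_
      rw [Finset.sum_const, Finset.card_range, nsmul_eq_mul]
      have e5 : (H : ℝ) ^ 2 ≤ Q := by
        have : (H : ℝ) ^ 2 ≤ (H : ℝ) ^ (2 * j + 1) := pow_le_pow_right₀ hHR (by omega)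
        linarith
      have e6 : (2 * j : ℝ) * H ≤ Q := by nlinarith
      rw [hy]
      rw [mul_one_div, ← mul_div_assoc, div_le_iff₀ hQpos]
      linarith
    have := (abs_le.mp e2).1
    linarith
  have hGpos : Q ^ j / 2 ≤ (G : ℝ) := by
    rw [← hevg]
    have : 0 < Q ^ j := by positivity
    nlinarith
  have hmain : (W' : ℝ) ^ 2 - (G : ℝ) ^ 2 = Q ^ (2 * j) * aeval y P := by
    rw [← hevf, ← hevg, hP, map_sub, map_mul]
    ring
  have hW'0 : (0:ℝ) ≤ W' := by rw [hW']; push_cast; positivity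
  by_cases hWG : W' = G
  · -- then `P (1/Q) = 0`, impossible
    rw [hWG, sub_self] at hmain
    have hz : aeval y P = 0 := by
      have : Q ^ (2 * j) ≠ 0 := by positivity
      rcases mul_eq_zero.mp hmain.symm with h | h
      · exact absurd h this
      · exact h
    set t0 := P.natTrailingDegree with ht0
    have hc0 : P.coeff t0 ≠ 0 := by
      rw [ht0]
      exact (trailingCoeff_nonzero_iff_nonzero).mpr hPne
    have ht0deg : t0 < 2 * j + 1 := lt_of_le_of_lt (le_natDegree_of_ne_zero hc0) hPdeg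
    rw [hPev] at hz
    have hlow : ∀ t, t < t0 → P.coeff t = 0 := by
      intro t ht
      exact coeff_eq_zero_of_lt_natTrailingDegree ht
    rw [← Finset.add_sum_erase _ _ (Finset.mem_range.mpr ht0deg)] at hz
    have hrest : |∑ t ∈ (range (2 * j + 1)).erase t0, (P.coeff t : ℝ) * y ^ t| ≤
        (2 * j) * ((H : ℝ) ^ (2 * j) * y ^ (t0 + 1)) := by
      refine (Finset.abs_sum_le_sum_abs _ _).trans ?_
      have e3 : ∀ t ∈ (range (2 * j + 1)).erase t0, |(P.coeff t : ℝ) * y ^ t| ≤
          (H : ℝ) ^ (2 * j) * y ^ (t0 + 1) := by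
        intro t ht
        rw [Finset.mem_erase, Finset.mem_range] at ht
        rcases lt_or_ge t t0 with h | h
        · rw [hlow t h]; simp; positivity
        · have h2 : t0 + 1 ≤ t := by omega
          rw [abs_mul, abs_of_nonneg (by positivity : (0:ℝ) ≤ y ^ t)]
          have e1 : |(P.coeff t : ℝ)| ≤ (H : ℝ) ^ t := by
            have := hPb t (by omega)
            have h2 : ((|P.coeff t| : ℤ) : ℝ) ≤ (((64 * A : ℤ) ^ t : ℤ) : ℝ) := by
              exact_mod_cast this
            rw [Int.cast_abs] at h2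
            refine h2.trans (le_of_eq ?_)
            rw [hH]; push_cast; ring
          have e4 : (H : ℝ) ^ t ≤ (H : ℝ) ^ (2 * j) := pow_le_pow_right₀ hHR (by omega)
          have e5 : y ^ t ≤ y ^ (t0 + 1) := by
            apply pow_le_pow_of_le_one hypos.le _ h2
            rw [hy, div_le_one hQpos]
            linarith
          exact mul_le_mul (e1.trans e4) e5 (by positivity) (by positivity)
      refine (Finset.sum_le_sum e3).trans ?_
      rw [Finset.sum_const, Finset.card_erase_of_mem (Finset.mem_range.mpr ht0deg),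
        Finset.card_range, nsmul_eq_mul]
      simp
    have hlead : y ^ t0 ≤ |(P.coeff t0 : ℝ) * y ^ t0| := by
      rw [abs_mul, abs_of_nonneg (by positivity : (0:ℝ) ≤ y ^ t0)]
      have : (1:ℝ) ≤ |(P.coeff t0 : ℝ)| := by
        have : (1:ℤ) ≤ |P.coeff t0| := Int.one_le_abs hc0
        exact_mod_cast this
      have h3 : 0 < y ^ t0 := by positivity
      exact le_abs_mul h3 this
    have heq : |(P.coeff t0 : ℝ) * y ^ t0| =
        |∑ t ∈ (range (2 * j + 1)).erase t0, (P.coeff t : ℝ) * y ^ t| := by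
      have : (P.coeff t0 : ℝ) * y ^ t0 =
        -∑ t ∈ (range (2 * j + 1)).erase t0, (P.coeff t : ℝ) * y ^ t := by linarith
      rw [this, abs_neg]
    have h5 : y ^ t0 ≤ (2 * j) * ((H : ℝ) ^ (2 * j) * y ^ (t0 + 1)) := by
      rw [heq] at hlead
      exact hlead.trans hrest
    have h6 : y ^ t0 ≤ y ^ t0 * ((2 * j) * (H : ℝ) ^ (2 * j) * y) := by
      calc y ^ t0 ≤ _ := h5
        _ = _ := by ring
    have h7 : 1 ≤ (2 * j) * (H : ℝ) ^ (2 * j) * y := by
      have h3 : 0 < y ^ t0 := by positivity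
      exact one_le_of h3 h6
    have h8 : Q ≤ (2 * j) * (H : ℝ) ^ (2 * j) := by
      rw [hy, mul_one_div, le_div_iff₀ hQpos] at h7
      linarith
    have h9 : (2 * j) * (H : ℝ) ^ (2 * j) ≤ (H : ℝ) ^ (2 * j + 1) := by
      rw [pow_succ, mul_comm]
      apply mul_le_mul_of_nonneg_left hHj (by positivity)
    linarith
  · have h1' : (1:ℝ) ≤ |(W' : ℝ) - G| := by
      have : (1:ℤ) ≤ |W' - G| := Int.one_le_abs (sub_ne_zero.mpr hWG)
      exact_mod_cast this
    have hG0 : (0:ℝ) < G := by
      have : 0 < Q ^ j := by positivity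
      linarith
    have h2' : Q ^ j / 2 ≤ |(W' : ℝ) ^ 2 - (G : ℝ) ^ 2| := by
      have e : (W' : ℝ) ^ 2 - (G : ℝ) ^ 2 = (W' - G) * (W' + G) := by ring
      rw [e, abs_mul, abs_of_pos (by linarith : (0:ℝ) < W' + G)]
      exact half_le_abs_mul hW'0 hGpos hG0 h1'
    rw [hmain, abs_mul, abs_of_pos (by positivity : (0:ℝ) < Q ^ (2 * j))] at h2'
    have h3' : Q ^ j / 2 ≤ Q ^ (2 * j) * (j * ((H : ℝ) * y) ^ (j + 1)) := by
      refine h2'.trans ?_
      apply mul_le_mul_of_nonneg_left hevbound (by positivity)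
    have h4' := alg1 Q y H j hQy
    rw [h4'] at h3'
    have hQj : 0 < Q ^ j := by positivity
    have h5' : 1 / 2 ≤ j * (H : ℝ) ^ (j + 1) * y := half_le_of hQj h3'
    have h6' : Q ≤ (2 * j) * (H : ℝ) ^ (j + 1) := by
      rw [hy, mul_one_div, le_div_iff₀ hQpos] at h5'
      linarith
    have h7' := alg2 H j hj hHR hHj
    exact absurd (lt_of_lt_of_le hQH (h6'.trans h7')) (lt_irrefl _)

end Pool.Agent.R312T
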