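import Mathlib

set_option autoImplicit false

open Finset

namespace Pool.Agent.R312T

/-- the sequence with `k + k * k = h` (Cauchy product) -/
def kk (h : ℕ → ℤ) : ℕ → ℤ
  | 0 => 0
  | (t + 1) => h (t + 1) - ∑ i : Fin t, kk h (i.1 + 1) * kk h (t - i.1)
termination_by n => n
decreasing_by all_goals (have := i.2; omega)

theorem kk_zero (h : ℕ → ℤ) : kk h 0 = 0 := by rw [kk]

theorem kk_one (h : ℕ → ℤ) : kk h 1 = h 1 := by rw [kk]; simp

theorem kk_succ (h : ℕ → ℤ) (t : ℕ) :
    kk h (t + 2) = h (t + 2) - ∑ p ∈ antidiagonal t, kk h (p.1 + 1) * kk h (p.2 + 1) := by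
  rw [kk]
  congr 1
  rw [Finset.Nat.sum_antidiagonal_eq_sum_range_succ_mk, Finset.sum_range]
  apply Finset.sum_congr rfl
  intro i _
  have h1 : t + 1 - i.1 = t - i.1 + 1 := by have := i.2; omega
  simp only [h1]

theorem kk_eq (h : ℕ → ℤ) (h0 : h 0 = 0) (t : ℕ) :
    kk h t + ∑ p ∈ antidiagonal t, kk h p.1 * kk h p.2 = h t := by
  match t with
  | 0 => simp [kk_zero, h0]
  | 1 =>
    rw [Finset.Nat.sum_antidiagonal_succ]
    simp [kk_zero, kk_one]
  | (t + 2) =>
    rw [Finset.Nat.sum_antidiagonal_succ, Finset.Nat.sum_antidiagonal_succ']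
    rw [kk_succ]
    simp [kk_zero]

theorem kk_bound (h : ℕ → ℤ) (A : ℕ) (hA : ∀ t, 1 ≤ t → 4 * |h t| ≤ (A : ℤ) ^ t) (t : ℕ) :
    2 * |kk h (t + 1)| ≤ (4 * A : ℤ) ^ (t + 1) * (catalan t : ℤ) := by
  induction t using Nat.strong_induction_on with
  | _ t ih =>
    match t with
    | 0 =>
      simp only [zero_add, kk_one, catalan_zero, pow_one, Nat.cast_one, mul_one]
      have := hA 1 le_rfl
      rw [pow_one] at this
      have h2 := abs_nonneg (h 1)
      linarith
    | (s + 1) =>
      rw [kk_succ]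
      have h1 : |h (s + 2) - ∑ p ∈ antidiagonal s, kk h (p.1 + 1) * kk h (p.2 + 1)| ≤
          |h (s + 2)| + ∑ p ∈ antidiagonal s, |kk h (p.1 + 1)| * |kk h (p.2 + 1)| := by
        refine (abs_sub _ _).trans ?_
        gcongr
        refine (Finset.abs_sum_le_sum_abs _ _).trans ?_
        apply Finset.sum_le_sum
        intro p _
        rw [abs_mul]
      have h2 : 4 * ∑ p ∈ antidiagonal s, |kk h (p.1 + 1)| * |kk h (p.2 + 1)| ≤
          (4 * A : ℤ) ^ (s + 2) * (catalan (s + 1) : ℤ) := by
        rw [catalan_succ']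
        push_cast
        rw [Finset.mul_sum, Finset.mul_sum]
        apply Finset.sum_le_sum
        intro p hp
        rw [HasAntidiagonal.mem_antidiagonal] at hp
        have e1 := ih p.1 (by omega)
        have e2 := ih p.2 (by omega)
        have e3 : (4 * A : ℤ) ^ (s + 2) = (4 * A : ℤ) ^ (p.1 + 1) * (4 * A : ℤ) ^ (p.2 + 1) := by
          rw [← pow_add]; congr 1; omega
        calc 4 * (|kk h (p.1 + 1)| * |kk h (p.2 + 1)|)
            = (2 * |kk h (p.1 + 1)|) * (2 * |kk h (p.2 + 1)|) := by ring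
          _ ≤ ((4 * A : ℤ) ^ (p.1 + 1) * (catalan p.1 : ℤ)) *
              ((4 * A : ℤ) ^ (p.2 + 1) * (catalan p.2 : ℤ)) := by
              apply mul_le_mul e1 e2 (by positivity) (by positivity)
          _ = _ := by rw [e3]; ring
      have h3 := hA (s + 2) (by omega)
      have h4 : (A : ℤ) ^ (s + 2) ≤ (4 * A : ℤ) ^ (s + 2) * (catalan (s + 1) : ℤ) := by
        have hc : (1 : ℤ) ≤ (catalan (s + 1) : ℤ) := by
          have : 0 < catalan (s + 1) := by
            rw [catalan_succ']
            apply Finset.sum_pos'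
            · intro i _; positivity
            · refine ⟨(0, s), by simp, ?_⟩
              simp only [catalan_zero, one_mul]
              have : ∀ n, 0 < catalan n := by
                intro n
                have h5 := succ_mul_catalan_eq_centralBinom n
                have h6 := Nat.centralBinom_pos n
                rw [← h5] at h6
                exact Nat.pos_of_mul_pos_left h6
              exact this s
          exact_mod_cast this
        have h6 : (A : ℤ) ^ (s + 2) ≤ (4 * A : ℤ) ^ (s + 2) := by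
          apply pow_le_pow_left₀ (by positivity)
          have : (0:ℤ) ≤ A := by positivity
          linarith
        calc (A : ℤ) ^ (s + 2) ≤ (4 * A : ℤ) ^ (s + 2) * 1 := by rw [mul_one]; exact h6
          _ ≤ _ := by apply mul_le_mul_of_nonneg_left hc (by positivity)
      have e : s + 1 + 1 = s + 2 := rfl
      simp only [e]
      have h7 := abs_nonneg (h (s + 2))
      linarith

theorem catalan_le (n : ℕ) : catalan n ≤ 4 ^ n := by
  have h5 := succ_mul_catalan_eq_centralBinom n
  have h6 : n.centralBinom ≤ 4 ^ n := by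
    rw [Nat.centralBinom_eq_two_mul_choose]
    calc (2 * n).choose n ≤ 2 ^ (2 * n) := Nat.choose_le_two_pow _ _
      _ = 4 ^ n := by rw [pow_mul]; norm_num
  nlinarith [Nat.zero_le (catalan n), Nat.zero_le n]

theorem kk_bound' (h : ℕ → ℤ) (A : ℕ) (hA : ∀ t, 1 ≤ t → 4 * |h t| ≤ (A : ℤ) ^ t) (t : ℕ)
    (ht : 1 ≤ t) :
    2 * |kk h t| ≤ (16 * A : ℤ) ^ t := by
  obtain ⟨s, rfl⟩ : ∃ s, t = s + 1 := ⟨t - 1, by omega⟩
  refine (kk_bound h A hA s).trans ?_
  have h1 : (catalan s : ℤ) ≤ 4 ^ (s + 1) := by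
    have := catalan_le s
    calc (catalan s : ℤ) ≤ 4 ^ s := by exact_mod_cast this
      _ ≤ 4 ^ (s + 1) := by
        apply pow_le_pow_right₀ (by norm_num); omega
  calc (4 * A : ℤ) ^ (s + 1) * (catalan s : ℤ) ≤ (4 * A : ℤ) ^ (s + 1) * 4 ^ (s + 1) := by
        apply mul_le_mul_of_nonneg_left h1 (by positivity)
    _ = _ := by rw [← mul_pow]; ring

end Pool.Agent.R312T
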